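import Mathlib
import Pool.Agent.TH276.Torsion.Hull

set_option autoImplicit false
set_option linter.unusedSectionVars false
set_option linter.style.haveILetI false

open Set Topology Filter MeasureTheory Metric
open scoped NNReal RealInnerProductSpace

namespace Pool.Agent.Y257.Clarke

section avg

variable {X : Type*} [NormedAddCommGroup X] [NormedSpace ℝ X] [FiniteDimensional ℝ X]
  [MeasurableSpace X] [BorelSpace X]

/-- A Lipschitz function whose derivative in direction `v` is at least `c` at all points of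
differentiability near a segment grows at least with rate `c` along the segment. -/
theorem le_sub_of_ae {φ : X → ℝ} {K : ℝ≥0} (hφ : LipschitzWith K φ) (x v : X) {c t ρ : ℝ}
    (ht : 0 ≤ t) (hρ : 0 < ρ)
    (hd : ∀ s ∈ Icc (0:ℝ) t, ∀ᵐ z ∂(Measure.addHaar : Measure X), ‖z‖ < ρ →
      c ≤ fderiv ℝ φ (x + s • v + z) v) :
    c * t ≤ φ (x + t • v) - φ x := by
  set μ : Measure X := Measure.addHaar with hμ
  -- it suffices to prove the inequality with an error
  suffices H : ∀ η ∈ Ioo (0:ℝ) ρ, c * t ≤ φ (x + t • v) - φ x + 2 * K * η by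
    have hlim : Tendsto (fun η : ℝ => φ (x + t • v) - φ x + 2 * K * η) (𝓝[>] 0)
        (𝓝 (φ (x + t • v) - φ x + 2 * K * 0)) := by
      apply Tendsto.mono_left _ nhdsWithin_le_nhds
      exact (Continuous.tendsto (by fun_prop) 0)
    rw [mul_zero, add_zero] at hlim
    refine ge_of_tendsto hlim ?_
    filter_upwards [Ioo_mem_nhdsGT hρ] with η hη using H η hη
  intro η hη
  set B : Set X := ball (0:X) η with hB
  have hBfin : μ B ≠ ⊤ := measure_ball_lt_top.ne
  have hBpos : 0 < μ.real B := by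
    rw [Measure.real, ENNReal.toReal_pos_iff]
    exact ⟨measure_ball_pos μ 0 hη.1, measure_ball_lt_top⟩
  set m := μ.real B with hm
  set Φ : ℝ → ℝ := fun s => ∫ z in B, φ (x + s • v + z) ∂μ with hΦ
  have hcont : ∀ s : ℝ, Continuous fun z => φ (x + s • v + z) := fun s =>
    hφ.continuous.comp (by fun_prop)
  have hint : ∀ s : ℝ, IntegrableOn (fun z => φ (x + s • v + z)) B μ := fun s =>
    ((hcont s).continuousOn.integrableOn_compact (isCompact_closedBall (0:X) η)).mono_set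
      ball_subset_closedBall
  have hae : ∀ s : ℝ, ∀ᵐ z ∂(μ.restrict B), DifferentiableAt ℝ φ (x + s • v + z) := fun s => by
    have h1 : ∀ᵐ z ∂μ, DifferentiableAt ℝ φ z := hφ.ae_differentiableAt
    have h2 := (quasiMeasurePreserving_add_left μ (x + s • v)).ae h1
    exact ae_restrict_of_ae h2
  have hder : ∀ s : ℝ, HasDerivAt Φ (∫ z in B, fderiv ℝ φ (x + s • v + z) v ∂μ) s ∧
      Integrable (fun z => fderiv ℝ φ (x + s • v + z) v) (μ.restrict B) := fun s => by
    have := hasDerivAt_integral_of_dominated_loc_of_lip (μ := μ.restrict B)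
      (F := fun s z => φ (x + s • v + z)) (x₀ := s) (s := univ)
      (F' := fun z => fderiv ℝ φ (x + s • v + z) v)
      (bound := fun _ => (K : ℝ) * ‖v‖) Filter.univ_mem
      (Eventually.of_forall fun s => (hcont s).aestronglyMeasurable) (hint s)
      (((measurable_fderiv_apply_const ℝ φ v).comp (by fun_prop :
        Measurable fun z : X => x + s • v + z)).aestronglyMeasurable) ?_
      (integrableOn_const (by exact hBfin)) ?_
    · exact ⟨this.2, this.1⟩
    · refine Eventually.of_forall fun z => ?_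
      refine (LipschitzWith.of_dist_le_mul fun a b => ?_).lipschitzOnWith
      rw [Real.coe_nnabs, abs_of_nonneg (by positivity)]
      refine (hφ.dist_le_mul _ _).trans ?_
      rw [dist_eq_norm, show x + a • v + z - (x + b • v + z) = (a - b) • v by
        rw [sub_smul]; abel, norm_smul, Real.dist_eq, Real.norm_eq_abs]
      nlinarith [norm_nonneg v, abs_nonneg (a - b), K.2]
    · filter_upwards [hae s] with z hz
      have h1 : HasDerivAt (fun s : ℝ => x + s • v + z) v s := by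
        have := ((hasDerivAt_id s).smul_const v).const_add x |>.add_const z
        simpa using this
      exact hz.hasFDerivAt.comp_hasDerivAt s h1
  have hlow : ∀ s ∈ Icc (0:ℝ) t, c * m ≤ deriv Φ s := fun s hs => by
    rw [(hder s).1.deriv]
    have h1 : c * m = ∫ z in B, c ∂μ := by
      rw [setIntegral_const, smul_eq_mul, mul_comm]
    rw [h1]
    refine integral_mono_ae (integrableOn_const (by exact hBfin)) (hder s).2 ?_
    filter_upwards [ae_restrict_of_ae (hd s hs), ae_restrict_mem measurableSet_ball] with z hz hzB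
    refine hz ?_
    have : ‖z‖ < η := by simpa [hB] using hzB
    exact this.trans hη.2
  have hmvt := (convex_Icc (0:ℝ) t).mul_sub_le_image_sub_of_le_deriv (f := Φ) (C := c * m)
    (fun s _ => (hder s).1.continuousAt.continuousWithinAt)
    (fun s _ => (hder s).1.differentiableAt.differentiableWithinAt)
    (fun s hs => hlow s (interior_subset hs)) 0 ⟨le_rfl, ht⟩ t ⟨ht, le_rfl⟩ ht
  have hclose : ∀ s : ℝ, |Φ s - m * φ (x + s • v)| ≤ m * (K * η) := fun s => by
    have h1 : m * φ (x + s • v) = ∫ z in B, φ (x + s • v) ∂μ := by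
      rw [setIntegral_const, smul_eq_mul]
    rw [h1, hΦ, ← integral_sub (hint s) (integrableOn_const (by exact hBfin)), ← Real.norm_eq_abs]
    have h2 : m * (K * η) = (K * η) * μ.real B := by rw [mul_comm]
    rw [h2]
    refine norm_setIntegral_le_of_norm_le_const measure_ball_lt_top fun z hz => ?_
    rw [← dist_eq_norm]
    refine (hφ.dist_le_mul _ _).trans ?_
    have : dist (x + s • v + z) (x + s • v) = ‖z‖ := by
      rw [dist_eq_norm]; congr 1; abel
    rw [this]
    have : ‖z‖ < η := by simpa [hB] using hz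
    exact mul_le_mul_of_nonneg_left this.le K.2
  have h0 := abs_le.1 (hclose 0)
  have ht' := abs_le.1 (hclose t)
  have hkey : m * (c * t) ≤ m * (φ (x + t • v) - φ x + 2 * K * η) := by
    have e0 : φ (x + (0:ℝ) • v) = φ x := by simp
    rw [e0] at h0
    nlinarith [h0.1, h0.2, ht'.1, ht'.2, hmvt]
  exact le_of_mul_le_mul_left hkey hBpos

end avg

section dir

variable {X Y : Type*} [NormedAddCommGroup X] [InnerProductSpace ℝ X] [FiniteDimensional ℝ X]
  [NormedAddCommGroup Y] [InnerProductSpace ℝ Y] [FiniteDimensional ℝ Y]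

/-- Limits of derivatives `fderiv f (x_k)` with `x_k → x₀`. -/
def limJac (f : X → Y) (x₀ : X) : Set (X →L[ℝ] Y) :=
  {A | ∃ u : ℕ → X, Tendsto u atTop (𝓝 x₀) ∧ (∀ k, DifferentiableAt ℝ f (u k)) ∧
    Tendsto (fun k => fderiv ℝ f (u k)) atTop (𝓝 A)}

theorem isClosed_limJac (f : X → Y) (x₀ : X) : IsClosed (limJac f x₀) := by
  have h : limJac f x₀ = (fun A : X →L[ℝ] Y => (x₀, A)) ⁻¹'
      closure {p : X × (X →L[ℝ] Y) | DifferentiableAt ℝ f p.1 ∧ fderiv ℝ f p.1 = p.2} := by
    ext A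
    rw [mem_preimage, mem_closure_iff_seq_limit]
    constructor
    · rintro ⟨u, hu, hd, hA⟩
      exact ⟨fun k => (u k, fderiv ℝ f (u k)), fun k => ⟨hd k, rfl⟩, hu.prodMk_nhds hA⟩
    · rintro ⟨p, hp, hlim⟩
      refine ⟨fun k => (p k).1, (continuous_fst.tendsto _).comp hlim, fun k => (hp k).1, ?_⟩
      have : (fun k => fderiv ℝ f (p k).1) = fun k => (p k).2 := funext fun k => (hp k).2
      rw [this]
      exact (continuous_snd.tendsto _).comp hlim
  rw [h]
  exact isClosed_closure.preimage (by fun_prop)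

theorem norm_le_of_mem_limJac {f : X → Y} {x₀ : X} {K : ℝ≥0} (hf : LipschitzWith K f)
    {A : X →L[ℝ] Y} (hA : A ∈ limJac f x₀) : ‖A‖ ≤ K := by
  obtain ⟨u, -, -, hA⟩ := hA
  exact le_of_tendsto hA.norm (Eventually.of_forall fun k => norm_fderiv_le_of_lipschitz ℝ hf)

theorem isCompact_limJac {f : X → Y} (x₀ : X) {K : ℝ≥0} (hf : LipschitzWith K f) :
    IsCompact (limJac f x₀) := by
  haveI : ProperSpace (X →L[ℝ] Y) := FiniteDimensional.proper ℝ _
  refine (isCompact_closedBall (0 : X →L[ℝ] Y) K).of_isClosed_subset (isClosed_limJac f x₀) ?_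
  intro A hA
  simpa using norm_le_of_mem_limJac hf hA

/-- the good directions at scale `ε` for the covector `w` -/
def Good (f : X → Y) (x₀ : X) (ε : ℝ) (w : Y) (v : X) : Prop :=
  ‖v‖ ≤ 1 / ε ∧ ∀ z ∈ ball x₀ ε, DifferentiableAt ℝ f z → ε ≤ ⟪w, fderiv ℝ f z v⟫

theorem exists_good {f : X → Y} {x₀ : X} {K : ℝ≥0} (hf : LipschitzWith K f)
    (hsurj : ∀ A ∈ convexHull ℝ (limJac f x₀), Function.Surjective A) (w : Y) (hw : w ≠ 0) :
    ∃ v : X, ∃ ε > 0, ∀ᶠ w' in 𝓝 w, Good f x₀ ε w' v := by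
  haveI : ProperSpace (X →L[ℝ] Y) := FiniteDimensional.proper ℝ _
  -- a separating direction
  obtain ⟨v, a, ha, hv⟩ : ∃ v : X, ∃ a > 0, ∀ A ∈ convexHull ℝ (limJac f x₀), a < ⟪w, A v⟫ := by
    set J := convexHull ℝ (limJac f x₀) with hJ
    have hJc : IsCompact J :=
      Pool.Agent.TH276.Torsion.isCompact_convexHull_of_isCompact (isCompact_limJac x₀ hf)
    let T : (X →L[ℝ] Y) →ₗ[ℝ] X :=
      { toFun := fun A => ContinuousLinearMap.adjoint A w
        map_add' := fun A B => by simp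
        map_smul' := fun r A => by simp }
    have hTc : Continuous T := LinearMap.continuous_of_finiteDimensional T
    have h0 : (0:X) ∉ T '' J := by
      rintro ⟨A, hA, hA0⟩
      obtain ⟨x, hx⟩ := hsurj A hA w
      have : ⟪ContinuousLinearMap.adjoint A w, x⟫ = ⟪w, A x⟫ :=
        ContinuousLinearMap.adjoint_inner_left A x w
      rw [show ContinuousLinearMap.adjoint A w = 0 from hA0, inner_zero_left, hx,
        real_inner_self_eq_norm_sq] at this
      have : ‖w‖ ^ 2 = 0 := this.symm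
      exact hw (by simpa using this)
    obtain ⟨φ, u, hu0, hu⟩ := geometric_hahn_banach_point_closed
      ((convex_convexHull ℝ (limJac f x₀)).linear_image T) (hJc.image hTc).isClosed h0
    refine ⟨(InnerProductSpace.toDual ℝ X).symm φ, u, by simpa using hu0, fun A hA => ?_⟩
    have h1 := hu (T A) ⟨A, hA, rfl⟩
    have h2 : φ (T A) = ⟪(InnerProductSpace.toDual ℝ X).symm φ, T A⟫ := by
      rw [InnerProductSpace.toDual_symm_apply]
    rw [h2, real_inner_comm] at h1
    have h3 : ⟪T A, (InnerProductSpace.toDual ℝ X).symm φ⟫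
        = ⟪w, A ((InnerProductSpace.toDual ℝ X).symm φ)⟫ :=
      ContinuousLinearMap.adjoint_inner_left A _ w
    rwa [h3] at h1
  -- the inequality persists near `x₀`
  obtain ⟨δ, hδ, hδ'⟩ : ∃ δ > 0, ∀ z ∈ ball x₀ δ, DifferentiableAt ℝ f z →
      a / 2 ≤ ⟪w, fderiv ℝ f z v⟫ := by
    by_contra hcon
    push Not at hcon
    have hpos : ∀ k : ℕ, (0:ℝ) < 1 / ((k:ℝ) + 1) := fun k => by positivity
    choose u hu hdiff hlt using fun k : ℕ => hcon _ (hpos k)
    have hulim : Tendsto u atTop (𝓝 x₀) := by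
      rw [tendsto_iff_dist_tendsto_zero]
      exact squeeze_zero (fun _ => dist_nonneg) (fun k => (mem_ball.1 (hu k)).le)
        tendsto_one_div_add_atTop_nhds_zero_nat
    have hmem : ∀ k, fderiv ℝ f (u k) ∈ closedBall (0 : X →L[ℝ] Y) K := fun k => by
      simpa using norm_fderiv_le_of_lipschitz ℝ hf
    obtain ⟨A, -, ψ, hψ, hA⟩ := (isCompact_closedBall (0 : X →L[ℝ] Y) K).tendsto_subseq hmem
    have hAJ : A ∈ limJac f x₀ :=
      ⟨u ∘ ψ, hulim.comp hψ.tendsto_atTop, fun k => hdiff _, hA⟩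
    have h1 := hv A (subset_convexHull ℝ _ hAJ)
    have h2 : ⟪w, A v⟫ ≤ a / 2 := by
      have hc : Continuous fun B : X →L[ℝ] Y => ⟪w, B v⟫ := by fun_prop
      exact le_of_tendsto ((hc.tendsto A).comp hA) (Eventually.of_forall fun k => (hlt _).le)
    linarith
  -- choose the scale
  set ε := min δ (min (a / 4) (1 / (‖v‖ + 1))) with hε
  have hεpos : 0 < ε := by
    have : 0 < 1 / (‖v‖ + 1) := by positivity
    exact lt_min hδ (lt_min (by linarith) this)
  refine ⟨v, ε, hεpos, ?_⟩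
  have hnear : ∀ᶠ w' in 𝓝 w, ‖w' - w‖ * (K * ‖v‖) < a / 4 := by
    have hc : Continuous fun w' : Y => ‖w' - w‖ * (K * ‖v‖) := by fun_prop
    have := hc.tendsto w
    simp only [sub_self, norm_zero, zero_mul] at this
    exact this.eventually_lt_const (by linarith)
  filter_upwards [hnear] with w' hw'
  refine ⟨?_, fun z hz hdz => ?_⟩
  · have h1 : ε ≤ 1 / (‖v‖ + 1) := (min_le_right _ _).trans (min_le_right _ _)
    rw [le_div_iff₀ hεpos]
    have h2 : ε * (‖v‖ + 1) ≤ 1 := by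
      rw [le_div_iff₀ (by positivity)] at h1
      exact h1
    nlinarith [norm_nonneg v]
  · have h1 := hδ' z (ball_subset_ball (min_le_left _ _) hz) hdz
    have h2 : ⟪w', fderiv ℝ f z v⟫ = ⟪w, fderiv ℝ f z v⟫ + ⟪w' - w, fderiv ℝ f z v⟫ := by
      rw [inner_sub_left]; ring
    have h3 : |⟪w' - w, fderiv ℝ f z v⟫| ≤ ‖w' - w‖ * (K * ‖v‖) := by
      refine (abs_real_inner_le_norm _ _).trans ?_
      refine mul_le_mul_of_nonneg_left ?_ (norm_nonneg _)
      refine (ContinuousLinearMap.le_opNorm _ _).trans ?_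
      exact mul_le_mul_of_nonneg_right (norm_fderiv_le_of_lipschitz ℝ hf) (norm_nonneg _)
    have h4 : ε ≤ a / 4 := (min_le_right _ _).trans (min_le_left _ _)
    have := (abs_le.1 h3).1
    linarith

theorem Good.mono {f : X → Y} {x₀ : X} {ε ε' : ℝ} (hε' : 0 < ε') (h : ε' ≤ ε) {w : Y} {v : X}
    (hg : Good f x₀ ε w v) : Good f x₀ ε' w v :=
  ⟨hg.1.trans (one_div_le_one_div_of_le hε' h),
    fun z hz hd => h.trans (hg.2 z (ball_subset_ball h hz) hd)⟩

theorem exists_field {f : X → Y} {x₀ : X} {K : ℝ≥0} (hf : LipschitzWith K f)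
    (hsurj : ∀ A ∈ convexHull ℝ (limJac f x₀), Function.Surjective A) :
    ∃ ε > 0, ∃ g : C(sphere (0:Y) 1, X), ∀ w : sphere (0:Y) 1, Good f x₀ ε (w : Y) (g w) := by
  haveI : ProperSpace Y := FiniteDimensional.proper ℝ _
  have huni : ∃ ε > 0, ∀ w ∈ sphere (0:Y) 1, ∃ v, ∀ᶠ w' in 𝓝 w, Good f x₀ ε w' v := by
    refine (isCompact_sphere (0:Y) 1).induction_on
      (p := fun s => ∃ ε > 0, ∀ w ∈ s, ∃ v, ∀ᶠ w' in 𝓝 w, Good f x₀ ε w' v) ?_ ?_ ?_ ?_
    · exact ⟨1, one_pos, fun w hw => absurd hw (notMem_empty w)⟩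
    · rintro s t hst ⟨ε, hε, h⟩
      exact ⟨ε, hε, fun w hw => h w (hst hw)⟩
    · rintro s t ⟨ε, hε, h⟩ ⟨ε', hε', h'⟩
      refine ⟨min ε ε', lt_min hε hε', fun w hw => ?_⟩
      rcases hw with hw | hw
      · obtain ⟨v, hv⟩ := h w hw
        exact ⟨v, hv.mono fun w' hw' => hw'.mono (lt_min hε hε') (min_le_left _ _)⟩
      · obtain ⟨v, hv⟩ := h' w hw
        exact ⟨v, hv.mono fun w' hw' => hw'.mono (lt_min hε hε') (min_le_right _ _)⟩
    · intro w hw
      have hw0 : w ≠ 0 := by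
        rintro rfl
        simp at hw
      obtain ⟨v, ε, hε, hv⟩ := exists_good hf hsurj w hw0
      refine ⟨{w' | ∀ᶠ w'' in 𝓝 w', Good f x₀ ε w'' v},
        mem_nhdsWithin_of_mem_nhds (eventually_eventually_nhds.2 hv), ε, hε, fun w' hw' => ⟨v, hw'⟩⟩
  obtain ⟨ε, hε, h⟩ := huni
  refine ⟨ε, hε, ?_⟩
  refine exists_continuous_forall_mem_convex_of_local_const
    (t := fun w : sphere (0:Y) 1 => {v | Good f x₀ ε (w : Y) v}) ?_ ?_
  · intro w v hv v' hv' a b ha hb hab
    refine ⟨?_, fun z hz hd => ?_⟩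
    · calc ‖a • v + b • v'‖ ≤ a * ‖v‖ + b * ‖v'‖ := by
            refine (norm_add_le _ _).trans ?_
            rw [norm_smul, norm_smul, Real.norm_of_nonneg ha, Real.norm_of_nonneg hb]
        _ ≤ a * (1 / ε) + b * (1 / ε) := add_le_add (mul_le_mul_of_nonneg_left hv.1 ha)
            (mul_le_mul_of_nonneg_left hv'.1 hb)
        _ = 1 / ε := by rw [← add_mul, hab, one_mul]
    · have h1 := hv.2 z hz hd
      have h2 := hv'.2 z hz hd
      rw [map_add, map_smul, map_smul, inner_add_right, inner_smul_right, inner_smul_right]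
      nlinarith
  · intro w
    obtain ⟨v, hv⟩ := h w w.2
    exact ⟨v, continuous_subtype_val.continuousAt.eventually hv⟩

/-- The homogeneous version of the direction field. -/
theorem exists_homog {f : X → Y} {x₀ : X} {K : ℝ≥0} (hf : LipschitzWith K f)
    (hsurj : ∀ A ∈ convexHull ℝ (limJac f x₀), Function.Surjective A) :
    ∃ ε > 0, ∃ V : Y → X, Continuous V ∧ (∀ z, ‖V z‖ ≤ 1 / ε * ‖z‖) ∧
      ∀ z, ∀ x ∈ ball x₀ ε, DifferentiableAt ℝ f x → ε * ‖z‖ ^ 2 ≤ ⟪z, fderiv ℝ f x (V z)⟫ := by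
  classical
  obtain ⟨ε, hε, g, hg⟩ := exists_field hf hsurj
  set G : Y → X := fun w => if h : w ∈ sphere (0:Y) 1 then g ⟨w, h⟩ else 0 with hG
  have hGc : ContinuousOn G (sphere (0:Y) 1) := by
    rw [continuousOn_iff_continuous_domRestrict]
    have : (sphere (0:Y) 1).domRestrict G = g := by
      ext w
      simp only [domRestrict_apply, hG]
      rw [dif_pos w.2]
    rw [this]
    exact g.continuous
  have hGg : ∀ w ∈ sphere (0:Y) 1, Good f x₀ ε w (G w) := fun w hw => by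
    simp only [hG]
    rw [dif_pos hw]
    exact hg ⟨w, hw⟩
  have hunit : ∀ z : Y, z ≠ 0 → ‖z‖⁻¹ • z ∈ sphere (0:Y) 1 := fun z hz => by
    rw [mem_sphere_zero_iff_norm, norm_smul, norm_inv, norm_norm,
      inv_mul_cancel₀ (norm_ne_zero_iff.2 hz)]
  set V : Y → X := fun z => ‖z‖ • G (‖z‖⁻¹ • z) with hV
  have hV0 : V 0 = 0 := by simp [hV]
  have hVn : ∀ z, ‖V z‖ ≤ 1 / ε * ‖z‖ := fun z => by
    rcases eq_or_ne z 0 with rfl | hz
    · simp [hV0]
    · rw [hV, norm_smul, norm_norm, mul_comm]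
      exact mul_le_mul_of_nonneg_right (hGg _ (hunit z hz)).1 (norm_nonneg z)
  refine ⟨ε, hε, V, ?_, hVn, ?_⟩
  · rw [continuous_iff_continuousAt]
    intro z
    rcases eq_or_ne z 0 with rfl | hz
    · have : Tendsto V (𝓝 0) (𝓝 0) := by
        refine squeeze_zero_norm hVn ?_
        have hc : Continuous fun z : Y => 1 / ε * ‖z‖ := by fun_prop
        have := hc.tendsto 0
        simpa using this
      rw [ContinuousAt, hV0]
      exact this
    · have hop : IsOpen {z : Y | z ≠ 0} := isOpen_ne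
      have h1 : ContinuousOn (fun z : Y => ‖z‖⁻¹ • z) {z : Y | z ≠ 0} :=
        ContinuousOn.smul (continuousOn_id.norm.inv₀ fun z hz => norm_ne_zero_iff.2 hz)
          continuousOn_id
      have h2 : ContinuousOn V {z : Y | z ≠ 0} :=
        continuousOn_id.norm.smul (hGc.comp h1 fun z hz => hunit z hz)
      exact h2.continuousAt (hop.mem_nhds hz)
  · intro z x hx hd
    rcases eq_or_ne z 0 with rfl | hz
    · simp
    · have h1 := (hGg _ (hunit z hz)).2 x hx hd
      have hz' : 0 < ‖z‖ := norm_pos_iff.2 hz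
      have h2 : ⟪z, fderiv ℝ f x (V z)⟫
          = ‖z‖ ^ 2 * ⟪‖z‖⁻¹ • z, fderiv ℝ f x (G (‖z‖⁻¹ • z))⟫ := by
        rw [hV, map_smul, inner_smul_right, real_inner_smul_left]
        field_simp
      rw [h2, mul_comm]
      exact mul_le_mul_of_nonneg_left h1 (by positivity)

end dir

section iter

variable {X Y : Type*} [NormedAddCommGroup X] [InnerProductSpace ℝ X] [FiniteDimensional ℝ X]
  [MeasurableSpace X] [BorelSpace X]
  [NormedAddCommGroup Y] [InnerProductSpace ℝ Y] [FiniteDimensional ℝ Y]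

/-- One descent step. -/
theorem step {F : X → Y} {x₀ : X} {K : ℝ≥0} (hF : LipschitzWith K F) {ε : ℝ} {V : Y → X}
    (hV : ∀ z, ‖V z‖ ≤ 1 / ε * ‖z‖)
    (hVd : ∀ z, ∀ x ∈ ball x₀ ε, DifferentiableAt ℝ F x → ε * ‖z‖ ^ 2 ≤ ⟪z, fderiv ℝ F x (V z)⟫)
    (hε : 0 < ε) {l : ℝ} (hl : 0 ≤ l) {x : X} {y : Y} (hx : x ∈ ball x₀ ε)
    (hx' : x + l • V (y - F x) ∈ ball x₀ ε) :
    ‖y - F (x + l • V (y - F x))‖ ^ 2
      ≤ (1 - 2 * ε * l + (K / ε) ^ 2 * l ^ 2) * ‖y - F x‖ ^ 2 := by
  set z := y - F x with hz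
  set v := V z with hv
  set x' := x + l • v with hx'd
  -- directional growth
  have hφ : LipschitzWith (‖z‖₊ * K) fun p => ⟪z, F p⟫ := by
    refine LipschitzWith.of_dist_le_mul fun p q => ?_
    rw [Real.dist_eq, ← inner_sub_right]
    refine (abs_real_inner_le_norm _ _).trans ?_
    rw [NNReal.coe_mul, coe_nnnorm, mul_assoc, ← dist_eq_norm (F p)]
    exact mul_le_mul_of_nonneg_left (hF.dist_le_mul p q) (norm_nonneg z)
  obtain ⟨r, hr, hxr, hx'r⟩ : ∃ r < ε, x ∈ closedBall x₀ r ∧ x' ∈ closedBall x₀ r := by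
    refine ⟨max (dist x x₀) (dist x' x₀), max_lt hx hx', ?_, ?_⟩
    · exact mem_closedBall.2 (le_max_left _ _)
    · exact mem_closedBall.2 (le_max_right _ _)
  have hgrow : (ε * ‖z‖ ^ 2) * l ≤ ⟪z, F x'⟫ - ⟪z, F x⟫ := by
    refine le_sub_of_ae hφ x v hl (ρ := ε - r) (by linarith) ?_
    intro s hs
    have hmem : x + s • v ∈ closedBall x₀ r := by
      rcases hl.eq_or_lt with h0 | hlpos
      · have : s = 0 := le_antisymm (by rw [h0]; exact hs.2) hs.1
        rw [this, zero_smul, add_zero]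
        exact hxr
      · have h1 : x + s • v = (1 - s / l) • x + (s / l) • x' := by
          rw [hx'd, smul_add, smul_smul, div_mul_cancel₀ _ hlpos.ne', sub_smul, one_smul]
          abel
        rw [h1]
        exact (convex_closedBall x₀ r) hxr hx'r (by
          rw [sub_nonneg, div_le_one hlpos]; exact hs.2) (div_nonneg hs.1 hl) (by ring)
    have hae : ∀ᵐ p ∂(Measure.addHaar : Measure X), DifferentiableAt ℝ F (x + s • v + p) :=
      (quasiMeasurePreserving_add_left (Measure.addHaar : Measure X) (x + s • v)).ae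
        hF.ae_differentiableAt
    filter_upwards [hae] with p hd hp
    have hball : x + s • v + p ∈ ball x₀ ε := by
      rw [mem_ball, dist_eq_norm]
      have h1 : ‖x + s • v - x₀‖ ≤ r := by
        rw [← dist_eq_norm]; exact mem_closedBall.1 hmem
      calc ‖x + s • v + p - x₀‖ = ‖(x + s • v - x₀) + p‖ := by congr 1; abel
        _ ≤ ‖x + s • v - x₀‖ + ‖p‖ := norm_add_le _ _
        _ < ε := by linarith
    have h2 := hVd z _ hball hd
    have h3 : HasFDerivAt (fun p => ⟪z, F p⟫)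
        ((innerSL ℝ z).comp (fderiv ℝ F (x + s • v + p))) (x + s • v + p) :=
      (innerSL ℝ z).hasFDerivAt.comp _ hd.hasFDerivAt
    rw [h3.fderiv]
    simpa using h2
  have hΔ : ‖F x' - F x‖ ≤ K * (l * (1 / ε * ‖z‖)) := by
    rw [← dist_eq_norm]
    refine (hF.dist_le_mul _ _).trans (mul_le_mul_of_nonneg_left ?_ K.2)
    rw [dist_eq_norm, hx'd, add_sub_cancel_left, norm_smul, Real.norm_of_nonneg hl]
    exact mul_le_mul_of_nonneg_left (hV z) hl
  have hexp : ‖y - F x'‖ ^ 2 = ‖z‖ ^ 2 - 2 * (⟪z, F x'⟫ - ⟪z, F x⟫) + ‖F x' - F x‖ ^ 2 := by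
    have : y - F x' = z - (F x' - F x) := by rw [hz]; abel
    rw [this, norm_sub_sq_real, inner_sub_right]
  rw [hexp]
  have h4 : ‖F x' - F x‖ ^ 2 ≤ (K * (l * (1 / ε * ‖z‖))) ^ 2 :=
    pow_le_pow_left₀ (norm_nonneg _) hΔ 2
  have h5 : (K * (l * (1 / ε * ‖z‖))) ^ 2 = (K / ε) ^ 2 * l ^ 2 * ‖z‖ ^ 2 := by
    field_simp
  rw [h5] at h4
  nlinarith

/-- Local existence of a jointly continuous, calm selection for a globally Lipschitz map. -/
theorem main_global {F : X → Y} {x₀ : X} {K : ℝ≥0} (hF : LipschitzWith K F)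
    (hsurj : ∀ A ∈ convexHull ℝ (limJac F x₀), Function.Surjective A) {η : ℝ} (hη : 0 < η) :
    ∃ r > 0, ∃ γ > 0, ∃ σ : X × Y → X, ContinuousOn σ (ball x₀ r ×ˢ ball (F x₀) r) ∧
      ∀ x ∈ ball x₀ r, ∀ y ∈ ball (F x₀) r, σ (x, y) ∈ ball x₀ η ∧ F (σ (x, y)) = y ∧
        ‖σ (x, y) - x‖ ≤ γ * ‖y - F x‖ := by
  obtain ⟨ε, hε, V, hVc, hVn, hVd⟩ := exists_homog hF hsurj
  -- step length
  set k : ℝ := K / ε + 1 with hk
  have hkpos : 0 < k := by positivity
  obtain ⟨l, hl, q, hq0, hq1, hq⟩ : ∃ l > 0, ∃ q : ℝ, 0 ≤ q ∧ q < 1 ∧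
      (1 - 2 * ε * l + (K / ε) ^ 2 * l ^ 2) ≤ q ^ 2 := by
    refine ⟨min (ε / k ^ 2) (1 / (2 * ε)), ?_, ?_⟩
    · exact lt_min (by positivity) (by positivity)
    set l := min (ε / k ^ 2) (1 / (2 * ε)) with hl
    have hlpos : 0 < l := lt_min (by positivity) (by positivity)
    have h1 : l * k ^ 2 ≤ ε := by
      have : l ≤ ε / k ^ 2 := min_le_left _ _
      rwa [le_div_iff₀ (by positivity)] at this
    have h2 : l * ε ≤ 1 / 2 := by
      have : l ≤ 1 / (2 * ε) := min_le_right _ _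
      rw [le_div_iff₀ (by positivity)] at this
      linarith
    have h3 : (K / ε) ^ 2 ≤ k ^ 2 := by
      apply pow_le_pow_left₀ (by positivity)
      rw [hk]; linarith
    have h4 : (K / ε) ^ 2 * l ^ 2 ≤ ε * l := by
      calc (K / ε) ^ 2 * l ^ 2 ≤ k ^ 2 * l ^ 2 := by gcongr
        _ = (l * k ^ 2) * l := by ring
        _ ≤ ε * l := by gcongr
    refine ⟨Real.sqrt (1 - ε * l), Real.sqrt_nonneg _, ?_, ?_⟩
    · rw [Real.sqrt_lt' one_pos]
      nlinarith [mul_pos hε hlpos]
    · rw [Real.sq_sqrt (by nlinarith)]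
      linarith
  -- constants
  set M : ℝ := l * (1 / ε) with hM
  have hMpos : 0 < M := by positivity
  set γ : ℝ := M * (1 - q)⁻¹ with hγ
  have h1q : 0 < 1 - q := by linarith
  have hγpos : 0 < γ := by positivity
  set ρ : ℝ := min ε η with hρ
  have hρpos : 0 < ρ := lt_min hε hη
  set r : ℝ := ρ / (2 * (1 + γ * (1 + K))) with hr
  have hden : 0 < 2 * (1 + γ * (1 + K)) := by positivity
  have hrpos : 0 < r := by positivity
  have hrineq : r + γ * ((1 + K) * r) < ρ := by
    have : r * (2 * (1 + γ * (1 + K))) = ρ := by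
      rw [hr]; field_simp
    nlinarith
  -- the iterates
  let S : ℕ → X × Y → X := fun n => Nat.rec (fun p => p.1)
    (fun _ T p => T p + l • V (p.2 - F (T p))) n
  have hS0 : ∀ p, S 0 p = p.1 := fun p => rfl
  have hSs : ∀ n p, S (n + 1) p = S n p + l • V (p.2 - F (S n p)) := fun n p => rfl
  have hSc : ∀ n, Continuous (S n) := by
    intro n
    induction n with
    | zero => exact continuous_fst
    | succ n ih =>
      have : S (n + 1) = fun p => S n p + l • V (p.2 - F (S n p)) := funext fun p => hSs n p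
      rw [this]
      exact ih.add ((hVc.comp (continuous_snd.sub (hF.continuous.comp ih))).const_smul l)
  have hE : ∀ x ∈ ball x₀ r, ∀ y ∈ ball (F x₀) r, ‖y - F x‖ ≤ (1 + K) * r := by
    intro x hx y hy
    have h1 : ‖y - F x₀‖ ≤ r := by rw [← dist_eq_norm]; exact (mem_ball.1 hy).le
    have h2 : ‖F x₀ - F x‖ ≤ K * r := by
      rw [← dist_eq_norm]
      refine (hF.dist_le_mul _ _).trans (mul_le_mul_of_nonneg_left ?_ K.2)
      rw [dist_comm]; exact (mem_ball.1 hx).le
    calc ‖y - F x‖ = ‖(y - F x₀) + (F x₀ - F x)‖ := by congr 1; abel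
      _ ≤ _ := (norm_add_le _ _).trans (by linarith)
  have hstepn : ∀ n p, ‖S (n + 1) p - S n p‖ ≤ M * ‖p.2 - F (S n p)‖ := fun n p => by
    rw [hSs, add_sub_cancel_left, norm_smul, Real.norm_of_nonneg hl.le, hM, mul_assoc]
    exact mul_le_mul_of_nonneg_left (hVn _) hl.le
  have hinv : ∀ x ∈ ball x₀ r, ∀ y ∈ ball (F x₀) r, ∀ n,
      ‖y - F (S n (x, y))‖ ≤ q ^ n * ‖y - F x‖ ∧
      ‖S n (x, y) - x‖ ≤ γ * (1 - q ^ n) * ‖y - F x‖ := by
    intro x hx y hy n
    have hxn : ‖x - x₀‖ < r := by rw [← dist_eq_norm]; exact mem_ball.1 hx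
    have hinball : ∀ n, ‖S n (x, y) - x‖ ≤ γ * (1 - q ^ n) * ‖y - F x‖ →
        S n (x, y) ∈ ball x₀ ε := fun n hn => by
      rw [mem_ball, dist_eq_norm]
      have h1 : γ * (1 - q ^ n) * ‖y - F x‖ ≤ γ * ((1 + K) * r) := by
        have h2 : γ * (1 - q ^ n) ≤ γ := by
          have : 0 ≤ q ^ n := pow_nonneg hq0 n
          nlinarith
        calc γ * (1 - q ^ n) * ‖y - F x‖ ≤ γ * ‖y - F x‖ :=
              mul_le_mul_of_nonneg_right h2 (norm_nonneg _)
          _ ≤ _ := mul_le_mul_of_nonneg_left (hE x hx y hy) hγpos.le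
      calc ‖S n (x, y) - x₀‖ = ‖(S n (x, y) - x) + (x - x₀)‖ := by congr 1; abel
        _ ≤ ‖S n (x, y) - x‖ + ‖x - x₀‖ := norm_add_le _ _
        _ < ρ := by linarith
        _ ≤ ε := min_le_left _ _
    induction n with
    | zero => simp [hS0]
    | succ n ih =>
      have hb := hstepn n (x, y)
      have hd : ‖S (n + 1) (x, y) - x‖ ≤ γ * (1 - q ^ (n + 1)) * ‖y - F x‖ := by
        calc ‖S (n + 1) (x, y) - x‖ = ‖(S (n + 1) (x, y) - S n (x, y)) + (S n (x, y) - x)‖ := by
              congr 1; abel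
          _ ≤ ‖S (n + 1) (x, y) - S n (x, y)‖ + ‖S n (x, y) - x‖ := norm_add_le _ _
          _ ≤ M * (q ^ n * ‖y - F x‖) + γ * (1 - q ^ n) * ‖y - F x‖ :=
              add_le_add (hb.trans (mul_le_mul_of_nonneg_left ih.1 hMpos.le)) ih.2
          _ = γ * (1 - q ^ (n + 1)) * ‖y - F x‖ := by
              have : M = γ * (1 - q) := by rw [hγ]; field_simp
              rw [this]; ring
      refine ⟨?_, hd⟩
      have hst := step hF hVn hVd hε hl.le (x := S n (x, y)) (y := y) (hinball n ih.2)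
        (by have := hinball (n + 1) hd; rwa [hSs] at this)
      rw [← hSs n (x, y)] at hst
      have h3 : ‖y - F (S (n + 1) (x, y))‖ ^ 2 ≤ (q * ‖y - F (S n (x, y))‖) ^ 2 := by
        rw [mul_pow]
        exact hst.trans (mul_le_mul_of_nonneg_right hq (by positivity))
      have h4 : ‖y - F (S (n + 1) (x, y))‖ ≤ q * ‖y - F (S n (x, y))‖ :=
        (pow_le_pow_iff_left₀ (norm_nonneg _) (by positivity) two_ne_zero).1 h3
      calc ‖y - F (S (n + 1) (x, y))‖ ≤ q * ‖y - F (S n (x, y))‖ := h4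
        _ ≤ q * (q ^ n * ‖y - F x‖) := mul_le_mul_of_nonneg_left ih.1 hq0
        _ = q ^ (n + 1) * ‖y - F x‖ := by rw [pow_succ]; ring
  -- the limit
  set D : ℕ → X × Y → X := fun n p => S (n + 1) p - S n p with hD
  set u : ℕ → ℝ := fun n => M * (q ^ n * ((1 + K) * r)) with hu
  have husum : Summable u := by
    have := (summable_geometric_of_lt_one hq0 hq1).mul_right ((1 + K) * r)
    exact this.mul_left M
  have hDu : ∀ n, ∀ p ∈ ball x₀ r ×ˢ ball (F x₀) r, ‖D n p‖ ≤ u n := by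
    rintro n ⟨x, y⟩ ⟨hx, hy⟩
    refine (hstepn n (x, y)).trans (mul_le_mul_of_nonneg_left ?_ hMpos.le)
    refine (hinv x hx y hy n).1.trans ?_
    exact mul_le_mul_of_nonneg_left (hE x hx y hy) (pow_nonneg hq0 n)
  set σ : X × Y → X := fun p => p.1 + ∑' n, D n p with hσ
  have hσlim : ∀ p ∈ ball x₀ r ×ˢ ball (F x₀) r, Tendsto (fun n => S n p) atTop (𝓝 (σ p)) := by
    intro p hp
    have hs : Summable fun n => D n p := Summable.of_norm_bounded husum fun n => hDu n p hp
    have h1 := hs.hasSum.tendsto_sum_nat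
    have h2 : ∀ n, S n p = p.1 + ∑ i ∈ Finset.range n, D i p := fun n => by
      rw [Finset.sum_range_sub (fun i => S i p), hS0]; abel
    have h3 : (fun n => S n p) = fun n => p.1 + ∑ i ∈ Finset.range n, D i p := funext h2
    rw [h3]
    exact h1.const_add p.1
  refine ⟨r, hrpos, γ, hγpos, σ, ?_, ?_⟩
  · refine continuousOn_fst.add (continuousOn_tsum (u := u) ?_ husum hDu)
    intro n
    exact ((hSc (n + 1)).sub (hSc n)).continuousOn
  · intro x hx y hy
    have hp : (x, y) ∈ ball x₀ r ×ˢ ball (F x₀) r := ⟨hx, hy⟩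
    have hlim := hσlim _ hp
    have hcalm : ‖σ (x, y) - x‖ ≤ γ * ‖y - F x‖ := by
      refine le_of_tendsto (hlim.sub_const x).norm (Eventually.of_forall fun n => ?_)
      refine (hinv x hx y hy n).2.trans (mul_le_mul_of_nonneg_right ?_ (norm_nonneg _))
      have : 0 ≤ q ^ n := pow_nonneg hq0 n
      nlinarith
    refine ⟨?_, ?_, hcalm⟩
    · rw [mem_ball, dist_eq_norm]
      have hxn : ‖x - x₀‖ < r := by rw [← dist_eq_norm]; exact mem_ball.1 hx
      calc ‖σ (x, y) - x₀‖ = ‖(σ (x, y) - x) + (x - x₀)‖ := by congr 1; abel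
        _ ≤ ‖σ (x, y) - x‖ + ‖x - x₀‖ := norm_add_le _ _
        _ < γ * ((1 + K) * r) + r := add_lt_add_of_le_of_lt
            (hcalm.trans (mul_le_mul_of_nonneg_left (hE x hx y hy) hγpos.le)) hxn
        _ ≤ ρ := by linarith
        _ ≤ η := min_le_right _ _
    · have h1 : Tendsto (fun n => y - F (S n (x, y))) atTop (𝓝 (y - F (σ (x, y)))) :=
        (((hF.continuous.tendsto _).comp hlim).const_sub y)
      have h2 : Tendsto (fun n => y - F (S n (x, y))) atTop (𝓝 0) := by
        refine squeeze_zero_norm (fun n => (hinv x hx y hy n).1) ?_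
        have := (tendsto_pow_atTop_nhds_zero_of_lt_one hq0 hq1).mul_const ‖y - F x‖
        simpa using this
      have := tendsto_nhds_unique h1 h2
      exact (sub_eq_zero.1 this).symm

theorem main_local {f : X → Y} {x₀ : X} {K : ℝ≥0} {U : Set X} (hU : U ∈ 𝓝 x₀)
    (hf : LipschitzOnWith K f U)
    (hsurj : ∀ A ∈ convexHull ℝ (limJac f x₀), Function.Surjective A) :
    ∃ W ∈ 𝓝 x₀, ∃ V ∈ 𝓝 (f x₀), ∃ γ > 0, ∃ σ : X × Y → X, ContinuousOn σ (W ×ˢ V) ∧
      ∀ x ∈ W, ∀ y ∈ V, f (σ (x, y)) = y ∧ ‖σ (x, y) - x‖ ≤ γ * ‖y - f x‖ := by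
  obtain ⟨η, hη, hball⟩ := Metric.mem_nhds_iff.1 hU
  obtain ⟨F, hF, hEq⟩ := (hf.mono hball).extend_finite_dimension
  have hx₀ : x₀ ∈ ball x₀ η := mem_ball_self hη
  have hsub : limJac F x₀ ⊆ limJac f x₀ := by
    rintro A ⟨u, hu, hd, hA⟩
    obtain ⟨N, hN⟩ := eventually_atTop.1 (hu.eventually (isOpen_ball.mem_nhds hx₀))
    have hev : ∀ k, f =ᶠ[𝓝 (u (k + N))] F := fun k => by
      filter_upwards [isOpen_ball.mem_nhds (hN (k + N) (Nat.le_add_left _ _))] with z hz
      exact hEq hz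
    refine ⟨fun k => u (k + N), hu.comp (tendsto_add_atTop_nat N), fun k => ?_, ?_⟩
    · exact (hd (k + N)).congr_of_eventuallyEq (hev k)
    · have : (fun k => fderiv ℝ f (u (k + N))) = fun k => fderiv ℝ F (u (k + N)) :=
        funext fun k => (hev k).fderiv_eq
      rw [this]
      exact hA.comp (tendsto_add_atTop_nat N)
  obtain ⟨r, hr, γ, hγ, σ, hσ, h⟩ := main_global (η := η) hF
    (fun A hA => hsurj A (convexHull_mono hsub hA)) hη
  refine ⟨ball x₀ (min r η), ball_mem_nhds _ (lt_min hr hη), ball (f x₀) r, ball_mem_nhds _ hr,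
    γ, hγ, σ, ?_, ?_⟩
  · refine hσ.mono (prod_mono (ball_subset_ball (min_le_left _ _)) ?_)
    rw [hEq hx₀]
  · intro x hx y hy
    have hx1 : x ∈ ball x₀ r := ball_subset_ball (min_le_left _ _) hx
    have hx2 : x ∈ ball x₀ η := ball_subset_ball (min_le_right _ _) hx
    rw [hEq hx₀] at hy
    obtain ⟨h1, h2, h3⟩ := h x hx1 y hy
    exact ⟨by rw [hEq h1]; exact h2, by rw [hEq hx2]; exact h3⟩

end iter

end Pool.Agent.Y257.Clarke
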