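import Mathlib

/-!
# Subharmonic functions are touched from above by paraboloids almost everywhere
-/

set_option autoImplicit false

open Metric Set Filter Topology MeasureTheory Module
open scoped NNReal ENNReal

namespace Pool.Agent.Y257.Touch

variable {E : Type*} [NormedAddCommGroup E] [InnerProductSpace ℝ E] [FiniteDimensional ℝ E]
  [MeasurableSpace E] [BorelSpace E]

/-- volume of balls -/
theorem vol_ball (x : E) (c r : ℝ) (hc : 0 < c) :
    (volume (ball x (c * r))).toReal = c ^ (finrank ℝ E) * (volume (ball (0 : E) r)).toReal := by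
  rw [Measure.addHaar_ball_mul_of_pos volume x hc r, ENNReal.toReal_mul,
    ENNReal.toReal_ofReal (by positivity)]

/-- the lower bound for the positive part of an affine function -/
theorem affine_lower (m g : E) (al s : ℝ) (hal : 0 ≤ al) (hs : 0 < s) :
    ‖g‖ * s / 4 * ((1 / 4) ^ (finrank ℝ E) * (volume (ball (0 : E) s)).toReal) ≤
      ∫ w in ball m s, max (inner ℝ g (w - m) + al) 0 := by
  rcases eq_or_ne g 0 with rfl | hg
  · simp only [norm_zero, zero_mul, zero_div]
    exact integral_nonneg fun w => le_max_right _ _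
  have hg0 : 0 < ‖g‖ := norm_pos_iff.2 hg
  set c : E := m + (s / (2 * ‖g‖)) • g with hc
  have hcm : ‖c - m‖ = s / 2 := by
    rw [hc, add_sub_cancel_left, norm_smul, Real.norm_eq_abs, abs_of_pos (by positivity)]
    field_simp
  have hsub : ball c (1 / 4 * s) ⊆ ball m s := by
    intro w hw
    rw [mem_ball, dist_eq_norm] at hw ⊢
    calc ‖w - m‖ = ‖(w - c) + (c - m)‖ := by congr 1; abel
      _ ≤ ‖w - c‖ + ‖c - m‖ := norm_add_le _ _
      _ < s := by rw [hcm]; linarith
  have hcont : Continuous fun w : E => max (inner ℝ g (w - m) + al) 0 := by fun_prop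
  have hint : IntegrableOn (fun w : E => max (inner ℝ g (w - m) + al) 0) (ball m s) :=
    (hcont.continuousOn.integrableOn_compact (isCompact_closedBall m s)).mono_set
      ball_subset_closedBall
  have h1 : ∫ w in ball c (1 / 4 * s), max (inner ℝ g (w - m) + al) 0 ≤
      ∫ w in ball m s, max (inner ℝ g (w - m) + al) 0 :=
    setIntegral_mono_set hint (Eventually.of_forall fun w => le_max_right _ _)
      (LE.le.eventuallyLE hsub)
  refine le_trans ?_ h1
  have h2 : ∀ w ∈ ball c (1 / 4 * s), ‖g‖ * s / 4 ≤ max (inner ℝ g (w - m) + al) 0 := by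
    intro w hw
    rw [mem_ball, dist_eq_norm] at hw
    have e : inner ℝ g (w - m) = inner ℝ g (w - c) + ‖g‖ * s / 2 := by
      have : w - m = (w - c) + (s / (2 * ‖g‖)) • g := by rw [hc]; abel
      rw [this, inner_add_right, inner_smul_right, real_inner_self_eq_norm_sq]
      field_simp
    have h3 : - (‖g‖ * ‖w - c‖) ≤ inner ℝ g (w - c) := by
      have := abs_real_inner_le_norm g (w - c)
      linarith [neg_abs_le (inner ℝ g (w - c))]
    have h4 : ‖g‖ * ‖w - c‖ ≤ ‖g‖ * (1 / 4 * s) := by gcongr
    apply le_max_of_le_left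
    rw [e]
    nlinarith
  calc ‖g‖ * s / 4 * ((1 / 4) ^ (finrank ℝ E) * (volume (ball (0 : E) s)).toReal)
      = ∫ w in ball c (1 / 4 * s), ‖g‖ * s / 4 := by
        rw [setIntegral_const, smul_eq_mul, Measure.real, vol_ball c (1 / 4) s (by norm_num)]
        ring
    _ ≤ _ := by
        apply setIntegral_mono_on _ _ measurableSet_ball h2
        · exact integrableOn_const measure_ball_lt_top.ne
        · exact hint.mono_set hsub

/-- the linear part integrates to zero -/
theorem linear_zero (x p : E) (s : ℝ) : ∫ w in ball x s, inner ℝ p (w - x) = 0 := by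
  have h1 : ∫ w in ball x s, inner ℝ p (w - x) = ∫ w in ball x s, - inner ℝ p (w - x) := by
    have hmp : MeasurePreserving (fun w : E => (x + x) - w) volume volume :=
      Measure.measurePreserving_sub_left volume (x + x)
    have h3 := hmp.setIntegral_preimage_emb (MeasurableEquiv.subLeft (x + x)).measurableEmbedding
      (fun w => inner ℝ p (w - x)) (ball x s)
    have h2 : (fun w : E => (x + x) - w) ⁻¹' ball x s = ball x s := by
      ext w
      simp only [mem_preimage, mem_ball, dist_eq_norm]
      rw [show x + x - w - x = -(w - x) by abel, norm_neg]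
    rw [h2] at h3
    rw [← h3]
    apply setIntegral_congr_fun measurableSet_ball
    intro w _
    simp only
    rw [show x + x - w - x = -(w - x) by abel, inner_neg_right]
  rw [integral_neg] at h1
  linarith

/-- the sub-mean value property over balls with continuous majorants -/
def SubMean (Ω : Set E) (u : E → EReal) : Prop :=
  ∀ (x : E) (s : ℝ), 0 < s → closedBall x s ⊆ Ω → ∀ h : E → ℝ, Continuous h →
    (∀ w ∈ closedBall x s, u w ≤ (h w : EReal)) →
    u x ≤ (((volume (ball x s)).toReal⁻¹ * ∫ w in ball x s, h w : ℝ) : EReal)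

/-- contact pairs: the paraboloid of opening `M` and vertex `y` touches `u` from above at `x` -/
def Contact (K : Set E) (u : E → EReal) (M : ℝ) (x y : E) : Prop :=
  ∀ w ∈ K, u w ≤ u x + ((M / 2 * (‖w - y‖ ^ 2 - ‖x - y‖ ^ 2) : ℝ) : EReal)

/-- the key estimate -/
theorem contact_lip {Ω : Set E} {u : E → EReal} (hu : SubMean Ω u) {K : Set E} {M : ℝ} (hM : 0 < M)
    {x y x' y' : E} (hx : u x ≠ ⊥) (hx2 : u x ≠ ⊤) (hx' : u x' ≠ ⊥) (hx2' : u x' ≠ ⊤)
    (hc : Contact K u M x y) (hc' : Contact K u M x' y') {s : ℝ} (hs : 0 < s)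
    (hK : closedBall x s ⊆ K) (hΩ : closedBall x s ⊆ Ω) (hxx : ‖x' - x‖ ≤ s / 2)
    (hxK : x ∈ K) (hx'K : x' ∈ K) :
    ‖y - y'‖ ≤ 4 * 8 ^ (finrank ℝ E) * s := by
  lift u x to ℝ using ⟨hx2, hx⟩ with a ha
  lift u x' to ℝ using ⟨hx2', hx'⟩ with a' ha'
  -- the two majorants
  set l : E → ℝ := fun w => a + M / 2 * (‖w - y‖ ^ 2 - ‖x - y‖ ^ 2) with hl
  set l' : E → ℝ := fun w => a' + M / 2 * (‖w - y'‖ ^ 2 - ‖x' - y'‖ ^ 2) with hl'
  have hmaj : ∀ w ∈ K, u w ≤ (l w : EReal) := by
    intro w hw
    have := hc w hw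
    rw [← ha, ← EReal.coe_add] at this
    exact this
  have hmaj' : ∀ w ∈ K, u w ≤ (l' w : EReal) := by
    intro w hw
    have := hc' w hw
    rw [← ha', ← EReal.coe_add] at this
    exact this
  have hlc : Continuous l := by fun_prop
  have hlc' : Continuous l' := by fun_prop
  have h1 := hu x s hs hΩ (fun w => min (l w) (l' w)) (hlc.min hlc') (by
    intro w hw
    rw [EReal.coe_strictMono.monotone.map_min]
    exact le_min (hmaj w (hK hw)) (hmaj' w (hK hw)))
  rw [← ha, EReal.coe_le_coe_iff] at h1
  -- notation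
  set V : ℝ := (volume (ball (0 : E) s)).toReal with hV
  have hVx : (volume (ball x s)).toReal = V := by
    have := vol_ball x 1 s one_pos
    rw [one_mul, one_pow, one_mul] at this
    exact this
  have hVpos : 0 < V := by
    rw [hV]
    exact ENNReal.toReal_pos (measure_ball_pos volume 0 hs).ne' measure_ball_lt_top.ne
  rw [hVx, le_inv_mul_iff₀ hVpos] at h1
  -- the difference is affine
  set g : E := M • (y' - y) with hg
  have haff : ∀ w, l w - l' w = inner ℝ g (w - x') + (l x' - a') := by
    intro w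
    have e1 : ∀ v z : E, ‖w - v‖ ^ 2 = ‖w - z‖ ^ 2 + 2 * inner ℝ (w - z) (z - v) + ‖z - v‖ ^ 2 := by
      intro v z
      rw [show w - v = (w - z) + (z - v) by abel, norm_add_sq_real]
    simp only [hl, hl', hg]
    rw [e1 y x', e1 y' x', inner_smul_left]
    have e3 : inner ℝ (y' - y) (w - x') = inner ℝ (w - x') (y' - y) := real_inner_comm _ _
    have e2 : inner ℝ (w - x') (x' - y) - inner ℝ (w - x') (x' - y') =
        inner ℝ (w - x') (y' - y) := by
      rw [← inner_sub_right]
      congr 1
      abel
    simp only [conj_trivial]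
    linear_combination M * e2 - M * e3
  have hal : 0 ≤ l x' - a' := by
    have := hmaj x' hx'K
    rw [← ha', EReal.coe_le_coe_iff] at this
    linarith
  -- integral of l
  have hli : ∫ w in ball x s, l w ≤ V * a + M / 2 * s ^ 2 * V := by
    have e : ∀ w, l w = (a + M / 2 * ‖w - x‖ ^ 2) + inner ℝ (M • (x - y)) (w - x) := by
      intro w
      simp only [hl]
      rw [show w - y = (w - x) + (x - y) by abel, norm_add_sq_real, inner_smul_left,
        real_inner_comm (x - y) (w - x)]
      simp only [conj_trivial]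
      ring
    have c1 : Continuous fun w : E => a + M / 2 * ‖w - x‖ ^ 2 := by fun_prop
    have c2 : Continuous fun w : E => (inner ℝ (M • (x - y)) (w - x) : ℝ) := by fun_prop
    have i1 : IntegrableOn (fun w : E => a + M / 2 * ‖w - x‖ ^ 2) (ball x s) :=
      (c1.continuousOn.integrableOn_compact (isCompact_closedBall x s)).mono_set
        ball_subset_closedBall
    have i2 : IntegrableOn (fun w : E => (inner ℝ (M • (x - y)) (w - x) : ℝ)) (ball x s) :=
      (c2.continuousOn.integrableOn_compact (isCompact_closedBall x s)).mono_set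
        ball_subset_closedBall
    simp_rw [e]
    rw [integral_add i1 i2, linear_zero, add_zero]
    calc ∫ w in ball x s, (a + M / 2 * ‖w - x‖ ^ 2) ≤ ∫ w in ball x s, (a + M / 2 * s ^ 2) := by
          apply setIntegral_mono_on i1 (integrableOn_const measure_ball_lt_top.ne)
            measurableSet_ball
          intro w hw
          rw [mem_ball, dist_eq_norm] at hw
          have : ‖w - x‖ ^ 2 ≤ s ^ 2 := by gcongr
          nlinarith
      _ = V * a + M / 2 * s ^ 2 * V := by
          rw [setIntegral_const, smul_eq_mul, Measure.real, hVx]; ring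
  -- min = l - positive part
  have hmin : ∀ w, min (l w) (l' w) = l w - max (inner ℝ g (w - x') + (l x' - a')) 0 := by
    intro w
    rw [← haff w]
    rcases le_total (l w) (l' w) with h | h
    · rw [min_eq_left h, max_eq_right (by linarith)]; ring
    · rw [min_eq_right h, max_eq_left (by linarith)]; ring
  have cpos : Continuous fun w : E => max (inner ℝ g (w - x') + (l x' - a')) 0 := by fun_prop
  have ipos : IntegrableOn (fun w : E => max (inner ℝ g (w - x') + (l x' - a')) 0) (ball x s) :=
    (cpos.continuousOn.integrableOn_compact (isCompact_closedBall x s)).mono_set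
      ball_subset_closedBall
  have il : IntegrableOn l (ball x s) :=
    (hlc.continuousOn.integrableOn_compact (isCompact_closedBall x s)).mono_set
      ball_subset_closedBall
  simp_rw [hmin] at h1
  rw [integral_sub il ipos] at h1
  have h2 : ∫ w in ball x s, max (inner ℝ g (w - x') + (l x' - a')) 0 ≤ M / 2 * s ^ 2 * V := by
    nlinarith
  have hsub : ball x' (s / 2) ⊆ ball x s := by
    intro w hw
    rw [mem_ball, dist_eq_norm] at hw ⊢
    calc ‖w - x‖ = ‖(w - x') + (x' - x)‖ := by congr 1; abel
      _ ≤ ‖w - x'‖ + ‖x' - x‖ := norm_add_le _ _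
      _ < s := by linarith
  have h3 : ∫ w in ball x' (s / 2), max (inner ℝ g (w - x') + (l x' - a')) 0 ≤
      ∫ w in ball x s, max (inner ℝ g (w - x') + (l x' - a')) 0 :=
    setIntegral_mono_set ipos (Eventually.of_forall fun w => le_max_right _ _)
      (LE.le.eventuallyLE hsub)
  have h4 := affine_lower x' g (l x' - a') (s / 2) hal (by positivity)
  have h5 : (volume (ball (0 : E) (s / 2))).toReal = (1 / 2) ^ (finrank ℝ E) * V := by
    have := vol_ball (0 : E) (1 / 2) s (by norm_num)
    rw [show s / 2 = 1 / 2 * s by ring, this]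
  rw [h5] at h4
  have h6 := (h4.trans h3).trans h2
  have h7 : ‖g‖ = M * ‖y - y'‖ := by
    rw [hg, norm_smul, Real.norm_eq_abs, abs_of_pos hM, norm_sub_rev]
  rw [h7] at h6
  have h8 : (1 / 4 : ℝ) ^ (finrank ℝ E) * ((1 / 2) ^ (finrank ℝ E) * V) =
      (8 ^ (finrank ℝ E))⁻¹ * V := by
    rw [← mul_assoc, ← mul_pow, ← inv_pow]
    norm_num
  rw [h8] at h6
  have h9 : (0 : ℝ) < 8 ^ (finrank ℝ E) := by positivity
  have h10 : M * ‖y - y'‖ * (s / 2) / 4 * ((8 ^ (finrank ℝ E))⁻¹ * V) =
      (M * s * V / 8 * (8 ^ (finrank ℝ E))⁻¹) * ‖y - y'‖ := by ring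
  have h11 : M / 2 * s ^ 2 * V = (M * s * V / 8 * (8 ^ (finrank ℝ E))⁻¹) *
      (4 * 8 ^ (finrank ℝ E) * s) := by
    field_simp
    ring
  rw [h10, h11] at h6
  exact le_of_mul_le_mul_left h6 (by positivity)

end Pool.Agent.Y257.Touch
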