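import Pool.Agent.Y257.Touch

/-!
# Subharmonic functions are touched from above by paraboloids almost everywhere, II
-/

set_option autoImplicit false

open Metric Set Filter Topology MeasureTheory Module
open scoped NNReal ENNReal

namespace Pool.Agent.Y257.Touch

variable {E : Type*} [NormedAddCommGroup E] [InnerProductSpace ℝ E] [FiniteDimensional ℝ E]
  [MeasurableSpace E] [BorelSpace E]

/-- Lipschitz images -/
theorem lip_image {f : E → E} {A : Set E} {C : ℝ≥0} (hf : LipschitzOnWith C f A) :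
    volume (f '' A) ≤ (C : ℝ≥0∞) ^ (finrank ℝ E) * volume A := by
  have e : (volume : Measure E) = (Measure.addHaarScalarFactor volume
      (Measure.hausdorffMeasure (finrank ℝ E : ℝ) : Measure E)) •
      (Measure.hausdorffMeasure (finrank ℝ E : ℝ) : Measure E) :=
    Measure.isAddLeftInvariant_eq_smul _ _
  have h := hf.hausdorffMeasure_image_le (d := (finrank ℝ E : ℝ)) (Nat.cast_nonneg _)
  rw [ENNReal.rpow_natCast] at h
  rw [e]
  generalize (Measure.addHaarScalarFactor (volume : Measure E)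
      (Measure.hausdorffMeasure (finrank ℝ E : ℝ) : Measure E)) = κ
  simp only [Measure.smul_apply, ENNReal.smul_def, smul_eq_mul]
  calc _ ≤ (κ : ℝ≥0∞) * ((C : ℝ≥0∞) ^ (finrank ℝ E) *
        Measure.hausdorffMeasure (finrank ℝ E : ℝ) A) := by
        gcongr
    _ = _ := by ring

/-- contact points exist -/
theorem exists_contact {K : Set E} (hK : IsCompact K) (hne : K.Nonempty) {u : E → EReal}
    (husc : UpperSemicontinuousOn u K) (M : ℝ) (y : E) : ∃ x ∈ K, Contact K u M x y := by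
  have hF : UpperSemicontinuousOn (fun w => u w + ((-(M / 2 * ‖w - y‖ ^ 2) : ℝ) : EReal)) K := by
    apply UpperSemicontinuousOn.add' husc
    · have : Continuous (fun z : E => ((-(M / 2 * ‖z - y‖ ^ 2) : ℝ) : EReal)) :=
        continuous_coe_real_ereal.comp (by fun_prop)
      exact this.upperSemicontinuous.upperSemicontinuousOn _
    · intro z _
      apply EReal.continuousAt_add
      · right; exact EReal.coe_ne_bot _
      · right; exact EReal.coe_ne_top _
  obtain ⟨x, hx, hmax⟩ := hF.exists_isMaxOn hne hK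
  refine ⟨x, hx, fun w hw => ?_⟩
  have h1 : u w + ((-(M / 2 * ‖w - y‖ ^ 2) : ℝ) : EReal) ≤
      u x + ((-(M / 2 * ‖x - y‖ ^ 2) : ℝ) : EReal) := hmax hw
  have h2 := add_le_add_left h1 (((M / 2 * ‖w - y‖ ^ 2 : ℝ)) : EReal)
  rw [add_assoc, add_assoc, ← EReal.coe_add, ← EReal.coe_add] at h2
  have e1 : -(M / 2 * ‖w - y‖ ^ 2) + M / 2 * ‖w - y‖ ^ 2 = 0 := by ring
  have e2 : -(M / 2 * ‖x - y‖ ^ 2) + M / 2 * ‖w - y‖ ^ 2 =
      M / 2 * (‖w - y‖ ^ 2 - ‖x - y‖ ^ 2) := by ring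
  rw [e1, e2] at h2
  simpa using h2

/-- contact pairs form a closed set -/
theorem contact_closed {K L : Set E} (hK : IsCompact K) (hL : IsCompact L) {u : E → EReal}
    (husc : UpperSemicontinuousOn u K) (M : ℝ) :
    IsCompact {x | x ∈ K ∧ ∃ y ∈ L, Contact K u M x y} := by
  have hC : IsCompact {p : E × E | p ∈ K ×ˢ L ∧ Contact K u M p.1 p.2} := by
    have hKL : IsCompact (K ×ˢ L) := hK.prod hL
    refine hKL.of_isClosed_subset ?_ (fun p hp => hp.1)
    rw [← isOpen_compl_iff, isOpen_iff_mem_nhds]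
    intro p hp
    by_cases hpK : p ∈ K ×ˢ L
    · have h1 : ¬ Contact K u M p.1 p.2 := fun h => hp ⟨hpK, h⟩
      unfold Contact at h1
      push Not at h1
      obtain ⟨w, hw, hlt⟩ := h1
      set φ : E × E → ℝ := fun q => M / 2 * (‖w - q.2‖ ^ 2 - ‖q.1 - q.2‖ ^ 2) with hφ
      have hφc : Continuous φ := by fun_prop
      -- a real number strictly between
      obtain ⟨c, hc1, hc2⟩ := EReal.lt_iff_exists_real_btwn.1 hlt
      have hlt' : u p.1 < ((c - φ p : ℝ) : EReal) := by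
        have h2 := EReal.sub_lt_sub_of_lt_of_le (x := u p.1 + (φ p : EReal)) (y := c)
          (z := φ p) (t := φ p) hc1 le_rfl (EReal.coe_ne_bot _) (EReal.coe_ne_top _)
        rw [← EReal.coe_sub] at h2
        have e : u p.1 + (φ p : EReal) - (φ p : EReal) = u p.1 := by
          rw [EReal.add_sub_cancel_right]
        rwa [e] at h2
      obtain ⟨d, hd1, hd2⟩ := EReal.lt_iff_exists_real_btwn.1 hlt'
      rw [EReal.coe_lt_coe_iff] at hd2
      have hu : ∀ᶠ x in 𝓝[K] p.1, u x < (d : EReal) := husc p.1 hpK.1 d hd1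
      have hu2 : ∀ᶠ q in 𝓝 p, q.1 ∈ K → u q.1 < (d : EReal) := by
        rw [eventually_nhdsWithin_iff] at hu
        exact (continuous_fst.tendsto p).eventually hu
      have hφ2 : ∀ᶠ q in 𝓝 p, φ q < c - d :=
        (hφc.tendsto p).eventually (gt_mem_nhds (by linarith))
      filter_upwards [hu2, hφ2] with q hq1 hq2 hq
      have h3 := hq.2 w hw
      have h4 : u q.1 + ((φ q : ℝ) : EReal) ≤ ((d + φ q : ℝ) : EReal) := by
        rw [EReal.coe_add]
        exact add_le_add_left (hq1 hq.1.1).le _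
      have h5 : ((d + φ q : ℝ) : EReal) < (c : EReal) := by
        rw [EReal.coe_lt_coe_iff]; linarith
      exact absurd (h3.trans (h4.trans h5.le)) (not_le.2 hc2)
    · have : (K ×ˢ L)ᶜ ∈ 𝓝 p := hKL.isClosed.isOpen_compl.mem_nhds hpK
      filter_upwards [this] with q hq hq2
      exact hq hq2.1
  have e : {x | x ∈ K ∧ ∃ y ∈ L, Contact K u M x y} =
      Prod.fst '' {p : E × E | p ∈ K ×ˢ L ∧ Contact K u M p.1 p.2} := by
    ext x
    constructor
    · rintro ⟨hx, y, hy, h⟩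
      exact ⟨(x, y), ⟨⟨hx, hy⟩, h⟩, rfl⟩
    · rintro ⟨p, ⟨⟨h1, h2⟩, h3⟩, rfl⟩
      exact ⟨h1, p.2, h2, h3⟩
  rw [e]
  exact hC.image continuous_fst

/-- the contact set has measure bounded from below -/
theorem contact_measure {Ω : Set E} {u : E → EReal} (hu : SubMean Ω u) (htop : ∀ z ∈ Ω, u z ≠ ⊤)
    (husc : UpperSemicontinuousOn u Ω) {x0 : E} {ρ : ℝ} (hρ : 0 < ρ)
    (hKΩ : closedBall x0 (24 * ρ) ⊆ Ω) (hx1 : ∃ x1 ∈ closedBall x0 ρ, u x1 ≠ ⊥) :
    ∃ A : Set E, IsCompact A ∧ A ⊆ closedBall x0 (4 * ρ) ∧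
      (∀ x ∈ A, ∃ M : ℝ, ∃ y : E, Contact (closedBall x0 (24 * ρ)) u M x y) ∧
      volume (closedBall x0 (4 * ρ)) ≤
        ((4 : ℝ≥0∞) ^ (finrank ℝ E) * (8 * 8 ^ (finrank ℝ E)) ^ (finrank ℝ E)) * volume A := by
  obtain ⟨x1, hx1, hx1b⟩ := hx1
  set K := closedBall x0 (24 * ρ) with hKdef
  have hKc : IsCompact K := isCompact_closedBall _ _
  have huK : UpperSemicontinuousOn u K := husc.mono hKΩ
  have hρK : closedBall x0 ρ ⊆ K := closedBall_subset_closedBall (by linarith)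
  obtain ⟨xm, hxm, hmax⟩ := huK.exists_isMaxOn ⟨x1, hρK hx1⟩ hKc
  have hmax' : ∀ w ∈ K, u w ≤ u xm := fun w hw => hmax hw
  have hmb : u xm ≠ ⊥ := by
    intro h
    have := hmax' x1 (hρK hx1)
    rw [h, le_bot_iff] at this
    exact hx1b this
  obtain ⟨S, hS⟩ : ∃ S : ℝ, u xm = (S : EReal) :=
    ⟨(u xm).toReal, (EReal.coe_toReal (htop xm (hKΩ hxm)) hmb).symm⟩
  obtain ⟨a1, ha1⟩ : ∃ a : ℝ, u x1 = (a : EReal) :=
    ⟨(u x1).toReal, (EReal.coe_toReal (htop x1 (hKΩ (hρK hx1))) hx1b).symm⟩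
  have haS : a1 ≤ S := by
    have := hmax' x1 (hρK hx1)
    rwa [ha1, hS, EReal.coe_le_coe_iff] at this
  set M : ℝ := (2 * (S - a1) + 1) / ρ ^ 2 with hM
  have hMpos : 0 < M := by
    rw [hM]; apply div_pos (by linarith) (by positivity)
  have hMρ : M * ρ ^ 2 = 2 * (S - a1) + 1 := by
    rw [hM]; field_simp
  have hreal : ∀ x y, x ∈ K → Contact K u M x y → ∃ a : ℝ, u x = (a : EReal) ∧ a ≤ S := by
    intro x y hx hc
    have hb : u x ≠ ⊥ := by
      intro h
      have h2 := hc x1 (hρK hx1)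
      rw [h, EReal.bot_add, le_bot_iff] at h2
      exact hx1b h2
    refine ⟨(u x).toReal, (EReal.coe_toReal (htop x (hKΩ hx)) hb).symm, ?_⟩
    have h3 := hmax' x hx
    rw [hS, ← EReal.coe_toReal (htop x (hKΩ hx)) hb, EReal.coe_le_coe_iff] at h3
    exact h3
  have hloc : ∀ x y, x ∈ K → y ∈ closedBall x0 ρ → Contact K u M x y → x ∈ closedBall x0 (4 * ρ) := by
    intro x y hx hy hc
    obtain ⟨a, ha, haS'⟩ := hreal x y hx hc
    have h2 := hc x1 (hρK hx1)
    rw [ha, ha1, ← EReal.coe_add, EReal.coe_le_coe_iff] at h2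
    rw [mem_closedBall, dist_eq_norm] at hy hx1 ⊢
    have h3 : ‖x1 - y‖ ≤ 2 * ρ := by
      calc ‖x1 - y‖ = ‖(x1 - x0) - (y - x0)‖ := by congr 1; abel
        _ ≤ ‖x1 - x0‖ + ‖y - x0‖ := norm_sub_le _ _
        _ ≤ 2 * ρ := by linarith
    have h4 : ‖x1 - y‖ ^ 2 ≤ 4 * ρ ^ 2 := by
      calc ‖x1 - y‖ ^ 2 ≤ (2 * ρ) ^ 2 := by gcongr
        _ = 4 * ρ ^ 2 := by ring
    have h5 : M * ‖x - y‖ ^ 2 ≤ M * (9 * ρ ^ 2) := by nlinarith
    have h6 : ‖x - y‖ ^ 2 ≤ (3 * ρ) ^ 2 := by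
      have := le_of_mul_le_mul_left h5 hMpos
      linarith
    have h7 : ‖x - y‖ ≤ 3 * ρ := by
      exact (pow_le_pow_iff_left₀ (norm_nonneg _) (by positivity) (by norm_num)).1 h6
    calc ‖x - x0‖ = ‖(x - y) + (y - x0)‖ := by congr 1; abel
      _ ≤ ‖x - y‖ + ‖y - x0‖ := norm_add_le _ _
      _ ≤ 4 * ρ := by linarith
  set A : Set E := {x | x ∈ K ∧ ∃ y ∈ closedBall x0 ρ, Contact K u M x y} with hA
  have hAc : IsCompact A := contact_closed hKc (isCompact_closedBall x0 ρ) huK M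
  have hA4 : A ⊆ closedBall x0 (4 * ρ) := by
    rintro x ⟨hx, y, hy, hc⟩
    exact hloc x y hx hy hc
  -- key estimate
  have hkey : ∀ x y x' y', x ∈ A → x' ∈ A → Contact K u M x y → Contact K u M x' y' →
      ∀ s : ℝ, 0 < s → s ≤ 20 * ρ → ‖x' - x‖ ≤ s / 2 → ‖y - y'‖ ≤ 4 * 8 ^ (finrank ℝ E) * s := by
    intro x y x' y' hx hx' hc hc' s hs hs2 hxx
    obtain ⟨a, ha, -⟩ := hreal x y hx.1 hc
    obtain ⟨a', ha', -⟩ := hreal x' y' hx'.1 hc'
    have hsub : closedBall x s ⊆ K := by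
      intro w hw
      have h4 := hA4 hx
      rw [mem_closedBall, dist_eq_norm] at hw h4
      rw [hKdef, mem_closedBall, dist_eq_norm]
      calc ‖w - x0‖ = ‖(w - x) + (x - x0)‖ := by congr 1; abel
        _ ≤ ‖w - x‖ + ‖x - x0‖ := norm_add_le _ _
        _ ≤ 24 * ρ := by linarith
    exact contact_lip hu hMpos (by rw [ha]; exact EReal.coe_ne_bot _)
      (by rw [ha]; exact EReal.coe_ne_top _) (by rw [ha']; exact EReal.coe_ne_bot _)
      (by rw [ha']; exact EReal.coe_ne_top _) hc hc' hs hsub (hsub.trans hKΩ) hxx hx.1 hx'.1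
  choose! f hf using fun x (hx : x ∈ A) => hx.2
  have hfc : ∀ x ∈ A, Contact K u M x (f x) := fun x hx => (hf x hx).2
  have hlip : LipschitzOnWith (8 * 8 ^ (finrank ℝ E)) f A := by
    rw [lipschitzOnWith_iff_dist_le_mul]
    intro x hx x' hx'
    rcases eq_or_ne x x' with rfl | hne
    · simp
    · have hd : 0 < ‖x' - x‖ := norm_pos_iff.2 (sub_ne_zero.2 hne.symm)
      have hd2 : ‖x' - x‖ ≤ 8 * ρ := by
        have h1 := hA4 hx
        have h2 := hA4 hx'
        rw [mem_closedBall, dist_eq_norm] at h1 h2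
        calc ‖x' - x‖ = ‖(x' - x0) - (x - x0)‖ := by congr 1; abel
          _ ≤ ‖x' - x0‖ + ‖x - x0‖ := norm_sub_le _ _
          _ ≤ 8 * ρ := by linarith
      have h := hkey x (f x) x' (f x') hx hx' (hfc x hx) (hfc x' hx') (2 * ‖x' - x‖) (by positivity)
        (by linarith) (by linarith)
      rw [dist_eq_norm, dist_eq_norm, ← norm_neg (x - x'), neg_sub]
      push_cast
      linarith
  have himg : closedBall x0 ρ ⊆ f '' A := by
    intro y hy
    obtain ⟨x, hx, hc⟩ := exists_contact hKc ⟨x1, hρK hx1⟩ huK M y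
    have hxA : x ∈ A := ⟨hx, y, hy, hc⟩
    refine ⟨x, hxA, ?_⟩
    have h1 : ∀ s : ℝ, 0 < s → s ≤ 20 * ρ → ‖f x - y‖ ≤ 4 * 8 ^ (finrank ℝ E) * s := fun s hs hs2 =>
      hkey x (f x) x y hxA hxA (hfc x hxA) hc s hs hs2 (by simp; positivity)
    have h2 : ‖f x - y‖ ≤ 0 := by
      have ht : Tendsto (fun s : ℝ => 4 * 8 ^ (finrank ℝ E) * s) (𝓝[>] 0) (𝓝 0) := by
        have : Tendsto (fun s : ℝ => 4 * 8 ^ (finrank ℝ E) * s) (𝓝 0) (𝓝 (4 * 8 ^ (finrank ℝ E) * 0)) :=
          (continuous_const.mul continuous_id).tendsto 0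
        rw [mul_zero] at this
        exact this.mono_left nhdsWithin_le_nhds
      refine ge_of_tendsto ht ?_
      filter_upwards [Ioo_mem_nhdsGT (show (0 : ℝ) < 20 * ρ by positivity)] with s hs
      exact h1 s hs.1 hs.2.le
    exact sub_eq_zero.1 (norm_le_zero_iff.1 h2)
  refine ⟨A, hAc, hA4, fun x hx => ⟨M, f x, hfc x hx⟩, ?_⟩
  have h1 : volume (closedBall x0 ρ) ≤
      ((8 * 8 ^ (finrank ℝ E) : ℝ≥0) : ℝ≥0∞) ^ (finrank ℝ E) * volume A :=
    (measure_mono himg).trans (lip_image hlip)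
  have h2 : volume (closedBall x0 (4 * ρ)) = (4 : ℝ≥0∞) ^ (finrank ℝ E) * volume (closedBall x0 ρ) := by
    rw [Measure.addHaar_closedBall_mul_of_pos volume x0 (by norm_num : (0 : ℝ) < 4) ρ,
      Measure.addHaar_closedBall_center volume x0 ρ]
    congr 1
    rw [ENNReal.ofReal_pow (by norm_num)]
    norm_num
  rw [h2, mul_assoc]
  refine mul_le_mul_right (h1.trans (le_of_eq ?_)) _
  push_cast
  rfl

/-- `u` is touched from above at `z` by a paraboloid, locally in `Ω` -/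
def Touched (Ω : Set E) (u : E → EReal) (z : E) : Prop :=
  ∃ V : Set E, IsOpen V ∧ V ⊆ Ω ∧ z ∈ V ∧ ∃ (M : ℝ) (y : E), Contact V u M z y

/-- **Main theorem.** -/
theorem ae_touched {Ω : Set E} (hΩ : IsOpen Ω) {u : E → EReal} (hu : SubMean Ω u)
    (htop : ∀ z ∈ Ω, u z ≠ ⊤) (husc : UpperSemicontinuousOn u Ω)
    (hne : ∀ x0 ∈ Ω, ∀ ρ : ℝ, 0 < ρ → closedBall x0 ρ ⊆ Ω → ∃ x1 ∈ closedBall x0 ρ, u x1 ≠ ⊥) :
    volume {z | z ∈ Ω ∧ ¬ Touched Ω u z} = 0 := by
  set Z : Set E := {z | z ∈ Ω ∧ ¬ Touched Ω u z} with hZ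
  have hae := ae_imp_of_ae_restrict (Besicovitch.ae_tendsto_measure_inter_div volume Z)
  have hall : ∀ᵐ x : E, x ∉ Z := by
    filter_upwards [hae] with x hx hxZ
    have ht := hx hxZ
    set c : ℝ≥0∞ := (4 : ℝ≥0∞) ^ (finrank ℝ E) * (8 * 8 ^ (finrank ℝ E)) ^ (finrank ℝ E) with hc
    have hc0 : c ≠ 0 := by
      rw [hc]; positivity
    have hct : c ≠ ⊤ := by
      rw [hc]
      exact ENNReal.mul_ne_top (ENNReal.pow_ne_top (by norm_num))
        (ENNReal.pow_ne_top (ENNReal.mul_ne_top (by norm_num) (ENNReal.pow_ne_top (by norm_num))))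
    obtain ⟨R, hR, hRΩ⟩ := Metric.isOpen_iff.1 hΩ x hxZ.1
    have hle : ∀ᶠ r in 𝓝[>] (0 : ℝ),
        volume (Z ∩ closedBall x r) / volume (closedBall x r) ≤ 1 - c⁻¹ := by
      filter_upwards [Ioo_mem_nhdsGT (show (0 : ℝ) < R / 7 by positivity)] with r hr
      set ρ : ℝ := r / 4 with hρ
      have hρ0 : 0 < ρ := by rw [hρ]; linarith [hr.1]
      have hr4 : r = 4 * ρ := by rw [hρ]; ring
      have hKΩ : closedBall x (24 * ρ) ⊆ Ω := by
        refine (closedBall_subset_ball ?_).trans hRΩ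
        have := hr.2
        rw [hr4] at this
        linarith
      obtain ⟨A, hAc, hA4, hAt, hAm⟩ := contact_measure hu htop husc hρ0 hKΩ
        (hne x hxZ.1 ρ hρ0 ((closedBall_subset_closedBall (by linarith)).trans hKΩ))
      rw [hr4]
      set B : Set E := closedBall x (4 * ρ) with hB
      have hBt : volume B ≠ ⊤ := measure_closedBall_lt_top.ne
      have hB0 : volume B ≠ 0 := (measure_closedBall_pos volume x (by positivity)).ne'
      have h1 : Z ∩ B ⊆ B \ A := by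
        rintro z ⟨hz, hzB⟩
        refine ⟨hzB, fun hzA => ?_⟩
        obtain ⟨M, y, hcon⟩ := hAt z hzA
        apply hz.2
        refine ⟨ball x (24 * ρ), isOpen_ball, ball_subset_closedBall.trans hKΩ, ?_, M, y,
          fun w hw => hcon w (ball_subset_closedBall hw)⟩
        have := hA4 hzA
        rw [mem_closedBall] at this
        rw [mem_ball]
        linarith
      have h2 : volume (Z ∩ B) + volume A ≤ volume B := by
        calc volume (Z ∩ B) + volume A ≤ volume (B \ A) + volume A := by gcongr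
          _ = volume B := by
            rw [add_comm]
            have := measure_inter_add_diff (μ := (volume : Measure E)) B hAc.measurableSet
            rwa [Set.inter_eq_self_of_subset_right hA4] at this
      have h3 : c⁻¹ * volume B ≤ volume A := by
        rw [ENNReal.inv_mul_le_iff hc0 hct]
        exact hAm
      have h4 : volume (Z ∩ B) + c⁻¹ * volume B ≤ volume B := by
        refine le_trans ?_ h2
        gcongr
      apply ENNReal.le_sub_of_add_le_right (ENNReal.inv_ne_top.2 hc0)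
      have h5 : volume (Z ∩ B) / volume B + c⁻¹ = (volume (Z ∩ B) + c⁻¹ * volume B) / volume B := by
        rw [ENNReal.add_div, ENNReal.mul_div_cancel_right hB0 hBt]
      rw [h5]
      exact ENNReal.div_le_of_le_mul (by rw [one_mul]; exact h4)
    have h6 : (1 : ℝ≥0∞) ≤ 1 - c⁻¹ := le_of_tendsto ht hle
    have h7 : (1 : ℝ≥0∞) - c⁻¹ < 1 :=
      ENNReal.sub_lt_self ENNReal.one_ne_top one_ne_zero (ENNReal.inv_ne_zero.2 hct)
    exact absurd h6 (not_le.2 h7)
  rw [ae_iff] at hall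
  simpa using hall

end Pool.Agent.Y257.Touch
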