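import Mathlib
import Pool.Agent.Y257.Touch
import Pool.Agent.Y257.Touch2

/-!
# Plurisubharmonic functions have the sub-mean value property on balls
-/

set_option autoImplicit false

open Metric Set Filter Topology MeasureTheory

namespace Pool.Agent.Y257.Psh

/-- complex n-space with its Hermitian norm -/
abbrev Cn (n : ℕ) : Type := EuclideanSpace ℂ (Fin n)

/-- The point z + e^{iθ} w on the boundary circle of the complex disc z + D w. -/
noncomputable def circ {n : ℕ} (z w : Cn n) (θ : ℝ) : Cn n :=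
  z + Complex.exp ((θ : ℂ) * Complex.I) • w

/-- Plurisubharmonic functions on an open set Ω, with values in [-∞, ∞). -/
def IsPSH {n : ℕ} (Ω : Set (Cn n)) (φ : Cn n → EReal) : Prop :=
  (∀ z ∈ Ω, φ z ≠ ⊤) ∧ UpperSemicontinuousOn φ Ω ∧
  ∀ z w : Cn n, (∀ ζ : ℂ, ‖ζ‖ ≤ 1 → z + ζ • w ∈ Ω) →
    ∀ h : ℝ → ℝ, Continuous h → (∀ θ ∈ Icc 0 (2 * Real.pi), φ (circ z w θ) ≤ (h θ : EReal)) →
      φ z ≤ (((2 * Real.pi)⁻¹ * ∫ θ in (0 : ℝ)..(2 * Real.pi), h θ : ℝ) : EReal)

theorem circ_continuous {n : ℕ} (z w : Cn n) : Continuous (circ z w) := by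
  unfold circ; fun_prop

variable {n : ℕ}

/-- rotation by a unimodular complex number -/
noncomputable def rot (c : ℂ) (hc : ‖c‖ = 1) : Cn n ≃ₗᵢ[ℝ] Cn n where
  toLinearEquiv := (LinearEquiv.smulOfNeZero ℂ (Cn n) c (by
    rintro rfl; simp at hc)).restrictScalars ℝ
  norm_map' := fun x => by
    change ‖c • x‖ = ‖x‖
    rw [norm_smul, hc, one_mul]

theorem rot_integral (Φ : Cn n → ℝ) (r : ℝ) (c : ℂ) (hc : ‖c‖ = 1) :
    ∫ ζ in ball (0 : Cn n) r, Φ (c • ζ) = ∫ ζ in ball (0 : Cn n) r, Φ ζ := by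
  have hmp := (rot (n := n) c hc).measurePreserving
  have h := hmp.setIntegral_preimage_emb (rot (n := n) c hc).toMeasurableEquiv.measurableEmbedding Φ
    (ball (0 : Cn n) r)
  have hpre : (rot (n := n) c hc) ⁻¹' (ball (0 : Cn n) r) = ball (0 : Cn n) r := by
    ext x
    simp
  rw [hpre] at h
  exact h

/-- integrating circle averages -/
theorem rot_avg (Φ : Cn n → ℝ) (lo r : ℝ)
    (hΦ : ContinuousOn Φ (closedBall 0 r))
    (h : ∀ ζ ∈ ball (0 : Cn n) r,
      lo ≤ (2 * Real.pi)⁻¹ * ∫ θ in (0 : ℝ)..(2 * Real.pi), Φ (Complex.exp ((θ : ℂ) * Complex.I) • ζ)) :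
    (volume (ball (0 : Cn n) r)).toReal * lo ≤ ∫ ζ in ball (0 : Cn n) r, Φ ζ := by
  have hpi := Real.pi_pos
  have hcont : ContinuousOn (fun p : Cn n × ℝ => Φ (Complex.exp ((p.2 : ℂ) * Complex.I) • p.1))
      (closedBall (0 : Cn n) r ×ˢ Icc 0 (2 * Real.pi)) := by
    refine hΦ.comp (by fun_prop) ?_
    rintro ⟨ζ, θ⟩ ⟨hζ, _⟩
    rw [mem_closedBall_zero_iff] at hζ ⊢
    rw [norm_smul, Complex.norm_exp_ofReal_mul_I, one_mul]
    exact hζ
  have hint : Integrable (fun p : Cn n × ℝ => Φ (Complex.exp ((p.2 : ℂ) * Complex.I) • p.1))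
      ((volume.restrict (ball (0 : Cn n) r)).prod (volume.restrict (Ioc 0 (2 * Real.pi)))) := by
    have h1 : IntegrableOn (fun p : Cn n × ℝ => Φ (Complex.exp ((p.2 : ℂ) * Complex.I) • p.1))
        (closedBall (0 : Cn n) r ×ˢ Icc 0 (2 * Real.pi)) :=
      hcont.integrableOn_compact ((isCompact_closedBall _ _).prod isCompact_Icc)
    have h2 := h1.mono_set (prod_mono ball_subset_closedBall Ioc_subset_Icc_self)
    rw [IntegrableOn, Measure.volume_eq_prod, ← Measure.prod_restrict] at h2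
    exact h2
  have hswap : ∫ ζ in ball (0 : Cn n) r, ∫ θ in Ioc 0 (2 * Real.pi),
        Φ (Complex.exp ((θ : ℂ) * Complex.I) • ζ) =
      ∫ θ in Ioc 0 (2 * Real.pi), ∫ ζ in ball (0 : Cn n) r,
        Φ (Complex.exp ((θ : ℂ) * Complex.I) • ζ) := integral_integral_swap hint
  have hin : ∀ θ : ℝ, ∫ ζ in ball (0 : Cn n) r, Φ (Complex.exp ((θ : ℂ) * Complex.I) • ζ) =
      ∫ ζ in ball (0 : Cn n) r, Φ ζ := by
    intro θ
    exact rot_integral Φ r _ (by rw [Complex.norm_exp_ofReal_mul_I])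
  have hint2 : Integrable (fun ζ : Cn n => (2 * Real.pi)⁻¹ * ∫ θ in Ioc 0 (2 * Real.pi),
      Φ (Complex.exp ((θ : ℂ) * Complex.I) • ζ)) (volume.restrict (ball (0 : Cn n) r)) :=
    hint.integral_prod_left.const_mul _
  calc (volume (ball (0 : Cn n) r)).toReal * lo
      = ∫ ζ in ball (0 : Cn n) r, lo := by
        rw [setIntegral_const, smul_eq_mul, Measure.real]
    _ ≤ ∫ ζ in ball (0 : Cn n) r, (2 * Real.pi)⁻¹ * ∫ θ in Ioc 0 (2 * Real.pi),
          Φ (Complex.exp ((θ : ℂ) * Complex.I) • ζ) := by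
        apply setIntegral_mono_on _ hint2 measurableSet_ball
        · intro ζ hζ
          have := h ζ hζ
          rwa [intervalIntegral.integral_of_le (by positivity)] at this
        · exact integrableOn_const measure_ball_lt_top.ne
    _ = (2 * Real.pi)⁻¹ * ∫ θ in Ioc 0 (2 * Real.pi), ∫ ζ in ball (0 : Cn n) r, Φ ζ := by
        rw [integral_const_mul, hswap]
        simp_rw [hin]
    _ = ∫ ζ in ball (0 : Cn n) r, Φ ζ := by
        rw [setIntegral_const]
        have : (volume : Measure ℝ).real (Ioc 0 (2 * Real.pi)) = 2 * Real.pi := by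
          rw [Measure.real, Real.volume_Ioc, sub_zero, ENNReal.toReal_ofReal (by positivity)]
        rw [this, smul_eq_mul, ← mul_assoc, inv_mul_cancel₀ (by positivity), one_mul]

theorem psh_subMean {Ω : Set (Cn n)} {u : Cn n → EReal} (hu : IsPSH Ω u) :
    Touch.SubMean Ω u := by
  obtain ⟨htop, -, hmean⟩ := hu
  intro x s hs hsub h hh hmaj
  have hxΩ : x ∈ Ω := hsub (mem_closedBall_self hs.le)
  have hx2 := htop x hxΩ
  rcases eq_or_ne (u x) ⊥ with hx | hx
  · rw [hx]; exact bot_le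
  lift u x to ℝ using ⟨hx2, hx⟩ with a ha
  rw [EReal.coe_le_coe_iff]
  have h1 : (volume (ball (0 : Cn n) s)).toReal * a ≤ ∫ ζ in ball (0 : Cn n) s, h (x + ζ) := by
    refine rot_avg (fun ζ => h (x + ζ)) a s (by fun_prop) ?_
    intro ζ hζ
    rw [mem_ball_zero_iff] at hζ
    have hmem : ∀ c : ℂ, ‖c‖ ≤ 1 → x + c • ζ ∈ closedBall x s := by
      intro c hc
      rw [mem_closedBall, dist_eq_norm, add_sub_cancel_left, norm_smul]
      calc ‖c‖ * ‖ζ‖ ≤ 1 * s := by gcongr
        _ = s := one_mul s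
    have h2 := hmean x ζ (fun c hc => hsub (hmem c hc)) (fun θ => h (circ x ζ θ))
      (hh.comp (circ_continuous x ζ)) (fun θ _ => hmaj _ (hmem _ (by
        rw [Complex.norm_exp_ofReal_mul_I])))
    rw [← ha, EReal.coe_le_coe_iff] at h2
    exact h2
  have hmp : MeasurePreserving (fun ζ : Cn n => x + ζ) volume volume :=
    measurePreserving_add_left volume x
  have h3 := hmp.setIntegral_preimage_emb (MeasurableEquiv.addLeft x).measurableEmbedding
    h (ball x s)
  have h2 : (fun ζ : Cn n => x + ζ) ⁻¹' ball x s = ball (0 : Cn n) s := by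
    ext ζ; simp [dist_eq_norm]
  rw [h2] at h3
  rw [h3] at h1
  have h4 : volume (ball x s) = volume (ball (0 : Cn n) s) := by
    rw [Measure.addHaar_ball_center]
  have h5 : 0 < (volume (ball (0 : Cn n) s)).toReal :=
    ENNReal.toReal_pos (measure_ball_pos volume _ hs).ne' measure_ball_lt_top.ne
  rw [h4, le_inv_mul_iff₀ h5]
  exact h1

/-- Propagation of the value -∞ in a connected open set. -/
theorem eq_bot_propagate (Ω : Set (Cn n)) (hΩ : IsOpen Ω) (hconn : IsPreconnected Ω)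
    (u : Cn n → EReal) (hu : IsPSH Ω u) (z0 : Cn n) (r : ℝ) (hr : 0 < r) (hz0 : ball z0 r ⊆ Ω)
    (hbot : ∀ z ∈ ball z0 r, u z = ⊥) : ∀ z ∈ Ω, u z = ⊥ := by
  obtain ⟨htop, husc, hmean⟩ := hu
  set V : Set (Cn n) := {z | ∃ ρ > 0, ball z ρ ⊆ Ω ∧ ∀ y ∈ ball z ρ, u y = ⊥} with hV
  have hVopen : IsOpen V := by
    rw [Metric.isOpen_iff]
    rintro z ⟨ρ, hρ, hρΩ, hρu⟩
    refine ⟨ρ / 2, by positivity, ?_⟩
    intro y hy
    have hsub : ball y (ρ / 2) ⊆ ball z ρ := by
      apply ball_subset_ball'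
      have : dist y z < ρ / 2 := hy
      linarith
    exact ⟨ρ / 2, by positivity, hsub.trans hρΩ, fun x hx => hρu x (hsub hx)⟩
  have hVne : (Ω ∩ V).Nonempty :=
    ⟨z0, hz0 (mem_ball_self hr), r, hr, hz0, hbot⟩
  have hVcl : closure V ∩ Ω ⊆ V := by
    rintro b ⟨hbcl, hbΩ⟩
    obtain ⟨ε, hε, hεΩ⟩ := Metric.isOpen_iff.1 hΩ b hbΩ
    set ρ := ε / 2 with hρdef
    have hρ : 0 < ρ := by positivity
    obtain ⟨v, hvV, hvb⟩ := Metric.mem_closure_iff.1 hbcl (ρ / 2) (by positivity)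
    obtain ⟨η, hη, hηΩ, hηu⟩ := hvV
    refine ⟨ρ / 2, by positivity, (ball_subset_ball (by linarith)).trans hεΩ, ?_⟩
    intro b' hb'
    have hb'b : dist b' b < ρ / 2 := hb'
    set w : Cn n := v - b' with hw
    have hwn : ‖w‖ < ρ := by
      rw [hw, ← dist_eq_norm]
      calc dist v b' ≤ dist v b + dist b b' := dist_triangle _ _ _
        _ < ρ / 2 + ρ / 2 := by rw [dist_comm v b, dist_comm b b']; linarith
        _ = ρ := by ring
    have hin : ∀ ζ : ℂ, ‖ζ‖ ≤ 1 → b' + ζ • w ∈ Ω := by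
      intro ζ hζ
      apply hεΩ
      rw [mem_ball, dist_eq_norm]
      calc ‖b' + ζ • w - b‖ = ‖(b' - b) + ζ • w‖ := by congr 1; abel
        _ ≤ ‖b' - b‖ + ‖ζ • w‖ := norm_add_le _ _
        _ ≤ ‖b' - b‖ + 1 * ‖w‖ := by rw [norm_smul]; gcongr
        _ < ε := by rw [← dist_eq_norm]; linarith
    have hcirc : ∀ θ : ℝ, circ b' w θ ∈ Ω := by
      intro θ
      apply hin
      rw [Complex.norm_exp_ofReal_mul_I]
    -- upper bound on the circle
    obtain ⟨M, hM⟩ : ∃ M : ℝ, ∀ θ ∈ Icc 0 (2 * Real.pi), u (circ b' w θ) ≤ (M : EReal) := by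
      have hK : IsCompact (circ b' w '' Icc 0 (2 * Real.pi)) :=
        isCompact_Icc.image (circ_continuous _ _)
      have hKΩ : circ b' w '' Icc 0 (2 * Real.pi) ⊆ Ω := by
        rintro _ ⟨θ, _, rfl⟩; exact hcirc θ
      have hne : (circ b' w '' Icc 0 (2 * Real.pi)).Nonempty :=
        ⟨_, 0, ⟨le_refl _, by positivity⟩, rfl⟩
      obtain ⟨m, hmK, hmax⟩ := (husc.mono hKΩ).exists_isMaxOn hne hK
      refine ⟨(u m).toReal, fun θ hθ => ?_⟩
      exact (hmax ⟨θ, hθ, rfl⟩ : u (circ b' w θ) ≤ u m).trans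
        (EReal.le_coe_toReal (htop m (hKΩ hmK)))
    -- an arc inside the region where u = -∞
    obtain ⟨δ, hδ, hδu⟩ : ∃ δ > 0, ∀ θ : ℝ, 0 ≤ θ → θ < δ → u (circ b' w θ) = ⊥ := by
      have h0 : circ b' w 0 = v := by simp [circ, hw]
      have hc : ContinuousAt (circ b' w) 0 := (circ_continuous _ _).continuousAt
      rw [Metric.continuousAt_iff] at hc
      obtain ⟨δ, hδ, h⟩ := hc η hη
      refine ⟨δ, hδ, fun θ h0θ hθ => hηu _ ?_⟩
      have := h (x := θ) (by rw [Real.dist_eq, sub_zero, abs_of_nonneg h0θ]; exact hθ)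
      rw [h0] at this
      exact this
    set g : ℝ → ℝ := fun θ => max 0 (1 - θ / δ) with hg
    have hgc : Continuous g := by simp only [hg]; fun_prop
    have hpi : 0 < 2 * Real.pi := by positivity
    have hgpos : 0 < ∫ θ in (0 : ℝ)..(2 * Real.pi), g θ := by
      refine intervalIntegral.integral_pos hpi hgc.continuousOn (fun θ _ => le_max_left _ _)
        ⟨0, ⟨le_refl _, hpi.le⟩, ?_⟩
      simp [hg]
    by_contra hne
    have hcoe : u b' = ((u b').toReal : EReal) :=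
      (EReal.coe_toReal (htop b' (hεΩ (by rw [mem_ball]; linarith))) hne).symm
    set x := (u b').toReal with hx
    set I := (2 * Real.pi)⁻¹ * ∫ θ in (0 : ℝ)..(2 * Real.pi), g θ with hI
    have hIpos : 0 < I := by positivity
    set K : ℝ := (M - x + 1) / I with hKdef
    have hkey := hmean b' w hin (fun θ => M - K * g θ) (by fun_prop) (by
      intro θ hθ
      rcases lt_or_ge θ δ with h | h
      · rw [hδu θ hθ.1 h]; exact bot_le
      · have : g θ = 0 := by
          simp only [hg]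
          apply max_eq_left
          have : 1 ≤ θ / δ := by rw [le_div_iff₀ hδ]; linarith
          linarith
        simp only [this, mul_zero, sub_zero]
        exact hM θ hθ)
    rw [hcoe, EReal.coe_le_coe_iff] at hkey
    have h1 : (2 * Real.pi)⁻¹ * ∫ θ in (0 : ℝ)..(2 * Real.pi), (M - K * g θ) = M - K * I := by
      rw [intervalIntegral.integral_sub (by simp)
        (by apply Continuous.intervalIntegrable; fun_prop), intervalIntegral.integral_const,
        intervalIntegral.integral_const_mul, smul_eq_mul, sub_zero, mul_sub, hI]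
      have : Real.pi ≠ 0 := Real.pi_ne_zero
      field_simp
    have h2 : K * I = M - x + 1 := by rw [hKdef]; field_simp
    rw [h1, h2] at hkey
    linarith
  have hsub := hconn.subset_of_closure_inter_subset hVopen hVne hVcl
  intro z hz
  obtain ⟨ρ, hρ, -, h⟩ := hsub hz
  exact h z (mem_ball_self hρ)

/-- **Almost every point is touched from above by a paraboloid.** -/
theorem psh_ae_touched {Ω : Set (Cn n)} (hΩ : IsOpen Ω) (hconn : IsPreconnected Ω)
    {u : Cn n → EReal} (hu : IsPSH Ω u) (hne : ∃ z ∈ Ω, u z ≠ ⊥) :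
    volume {z | z ∈ Ω ∧ ¬ Touch.Touched Ω u z} = 0 := by
  refine Touch.ae_touched hΩ (psh_subMean hu) hu.1 hu.2.1 ?_
  intro x0 _ ρ hρ hsub
  by_contra hcon
  push Not at hcon
  obtain ⟨z, hz, hzne⟩ := hne
  exact hzne (eq_bot_propagate Ω hΩ hconn u hu x0 ρ hρ (ball_subset_closedBall.trans hsub)
    (fun w hw => hcon w (ball_subset_closedBall hw)) z hz)

end Pool.Agent.Y257.Psh
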