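import Pool.Agent.Y257.Enn

/-!
# Planar discs in the section of the domain
-/

set_option autoImplicit false

open Metric Set Filter Topology

namespace Pool.Agent.Y257.Enn

/-- the comparison polynomial -/
noncomputable def P (z : ℂ) : ℂ := z + z ^ 5 / 16

theorem P_bound {x y : ℝ} (h : x ^ 4 + y ^ 4 < 1) :
    (Complex.normSq (P ⟨x, y⟩)) < 1.17 := by
  have e : Complex.normSq (P ⟨x, y⟩) = (x ^ 2 + y ^ 2) * (1 + ((x ^ 2 + y ^ 2) ^ 2 - 8 * (x ^ 2 * y ^ 2)) / 8
      + (x ^ 2 + y ^ 2) ^ 4 / 256) := by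
    have : P ⟨x, y⟩ = (⟨x, y⟩ : ℂ) * (1 + (⟨x, y⟩ : ℂ) ^ 4 / 16) := by unfold P; ring
    have e1 : Complex.normSq (⟨x, y⟩ : ℂ) = x ^ 2 + y ^ 2 := by
      rw [Complex.normSq_apply]; ring
    have e2 : Complex.normSq (1 + (⟨x, y⟩ : ℂ) ^ 4 / 16) =
        1 + ((x ^ 2 + y ^ 2) ^ 2 - 8 * (x ^ 2 * y ^ 2)) / 8 + (x ^ 2 + y ^ 2) ^ 4 / 256 := by
      rw [Complex.normSq_apply]
      simp [pow_succ, Complex.mul_re, Complex.mul_im]
      ring
    rw [this, map_mul, e1, e2]
  rw [e]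
  set X := x ^ 2 with hX
  set Y := y ^ 2 with hY
  have hX0 : 0 ≤ X := sq_nonneg x
  have hY0 : 0 ≤ Y := sq_nonneg y
  have hc : X ^ 2 + Y ^ 2 < 1 := by rw [hX, hY]; nlinarith
  set p := X + Y with hp
  have hp0 : 0 ≤ p := add_nonneg hX0 hY0
  have hq : X * Y = (p ^ 2 - (X ^ 2 + Y ^ 2)) / 2 := by rw [hp]; ring
  have hq0 : 0 ≤ X * Y := mul_nonneg hX0 hY0
  have hp2 : p ^ 2 < 2 := by rw [hp]; nlinarith [sq_nonneg (X - Y)]
  rcases le_total p 1 with h1 | h1
  · have h2 : (p ^ 2 - 8 * (X * Y)) / 8 ≤ 1 / 8 := by nlinarith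
    have h3 : p ^ 4 / 256 ≤ 1 / 256 := by
      have : p ^ 4 ≤ 1 := pow_le_one₀ hp0 h1
      linarith
    have h4 : 1 + (p ^ 2 - 8 * (X * Y)) / 8 + p ^ 4 / 256 ≤ 1 + 1 / 8 + 1 / 256 := by linarith
    have h5 : 0 ≤ 1 + 1 / 8 + (1 : ℝ) / 256 := by norm_num
    calc p * (1 + (p ^ 2 - 8 * (X * Y)) / 8 + p ^ 4 / 256) ≤ p * (1 + 1 / 8 + 1 / 256) :=
          mul_le_mul_of_nonneg_left h4 hp0
      _ ≤ 1 * (1 + 1 / 8 + 1 / 256) := mul_le_mul_of_nonneg_right h1 h5
      _ < 1.17 := by norm_num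
  · have h2 : p ^ 2 - 8 * (X * Y) ≤ 4 - 3 * p ^ 2 := by rw [hq]; linarith
    have h3 : p * (1 + (p ^ 2 - 8 * (X * Y)) / 8 + p ^ 4 / 256) ≤
        p * (1 + (4 - 3 * p ^ 2) / 8 + p ^ 4 / 256) :=
      mul_le_mul_of_nonneg_left (by linarith) hp0
    have h4 : p * (1 + (4 - 3 * p ^ 2) / 8 + p ^ 4 / 256) < 1.17 := by
      have h5 : p ^ 4 ≤ 4 := by nlinarith
      have h6 : p ≤ 1.4143 := by nlinarith
      nlinarith [sq_nonneg (p - 1.1689), mul_nonneg hp0 (sq_nonneg (p - 1.1689)),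
        mul_nonneg hp0 (sq_nonneg (p ^ 2 - 1.3663)), sq_nonneg (p ^ 2 - 1.3663)]
    linarith

theorem normP_bound {w : ℂ} (h : w.re ^ 4 + w.im ^ 4 < 1) : ‖P w‖ < 1.0817 := by
  have h1 := P_bound h
  rw [Complex.eta] at h1
  rw [← Complex.sq_norm] at h1
  nlinarith [norm_nonneg (P w)]

/-- holomorphic discs in the planar section -/
theorem holo_bound {F : ℂ → ℂ} (hF : DifferentiableOn ℂ F (ball 0 1))
    (hm : ∀ z ∈ ball (0 : ℂ) 1, (F z).re ^ 4 + (F z).im ^ 4 < 1) (h0 : F 0 = 0) :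
    ‖deriv F 0‖ < 13 / 12 := by
  have hd : DifferentiableOn ℂ (fun z => P (F z)) (ball 0 1) := by
    unfold P
    fun_prop
  have hmap : MapsTo (fun z => P (F z)) (ball 0 1) (closedBall ((fun z => P (F z)) 0) 1.0817) := by
    intro z hz
    have e0 : (fun z => P (F z)) 0 = 0 := by simp [h0, P]
    rw [e0, mem_closedBall_zero_iff]
    exact (normP_bound (hm z hz)).le
  have h := Complex.norm_deriv_le_div_of_mapsTo_ball hd hmap one_pos
  have hF0 : HasDerivAt F (deriv F 0) 0 :=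
    (hF.differentiableAt (isOpen_ball.mem_nhds (mem_ball_self one_pos))).hasDerivAt
  have hP : HasDerivAt P 1 (F 0) := by
    rw [h0]
    have h5 : HasDerivAt (fun z : ℂ => z + z ^ 5 / 16) (1 + ((5 : ℕ) * (0 : ℂ) ^ (5 - 1)) / 16) 0 :=
      (hasDerivAt_id' (0 : ℂ)).add ((hasDerivAt_pow 5 (0 : ℂ)).div_const 16)
    have e : (1 + ((5 : ℕ) * (0 : ℂ) ^ (5 - 1)) / 16) = 1 := by norm_num
    rw [e] at h5
    exact h5
  have h1 : deriv (fun z => P (F z)) 0 = deriv F 0 := by
    have := (hP.comp 0 hF0).deriv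
    simpa [Function.comp_def] using this
  rw [h1] at h
  norm_num at h ⊢
  linarith


/-- the first two coordinates as a complex number -/
noncomputable def T : E3 →L[ℝ] ℂ :=
  Complex.ofRealCLM.comp (EuclideanSpace.proj (0 : Fin 3) : E3 →L[ℝ] ℝ) +
    Complex.I • Complex.ofRealCLM.comp (EuclideanSpace.proj (1 : Fin 3) : E3 →L[ℝ] ℝ)

theorem T_apply (x : E3) : T x = (x 0 : ℂ) + Complex.I * (x 1 : ℂ) := by
  simp [T]

theorem T_re (x : E3) : (T x).re = x 0 := by simp [T_apply]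
theorem T_im (x : E3) : (T x).im = x 1 := by simp [T_apply]

/-- derivatives in the directions `1` and `i` of a `C²` disc, and symmetry -/
theorem second {f : ℂ → E3} (hf : ContDiffOn ℝ 2 f (ball 0 1)) {z : ℂ} (hz : z ∈ ball (0 : ℂ) 1) :
    (∀ v, DifferentiableAt ℝ (fun w => fderiv ℝ f w v) z) ∧
    ∀ v u, fderiv ℝ (fun w => fderiv ℝ f w v) z u = fderiv ℝ (fun w => fderiv ℝ f w u) z v := by
  have hc : ContDiffAt ℝ 2 f z := hf.contDiffAt (isOpen_ball.mem_nhds hz)
  have hd : DifferentiableAt ℝ (fderiv ℝ f) z :=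
    (hc.fderiv_right (m := 1) (by norm_num)).differentiableAt (by norm_num)
  have hv : ∀ v, HasFDerivAt (fun w => fderiv ℝ f w v)
      ((ContinuousLinearMap.apply ℝ E3 v).comp (fderiv ℝ (fderiv ℝ f) z)) z := fun v =>
    (ContinuousLinearMap.apply ℝ E3 v).hasFDerivAt.comp z hd.hasFDerivAt
  refine ⟨fun v => (hv v).differentiableAt, fun v u => ?_⟩
  rw [(hv v).fderiv, (hv u).fderiv]
  have hs := hc.isSymmSndFDerivAt (by simp [minSmoothness])
  simpa using hs.eq u v

theorem planar {f : ℂ → E3} {r : ℝ} (hf : CH f) (hz2 : ∀ z ∈ ball (0 : ℂ) 1, f z 2 = 0)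
    (h0 : f 0 = 0) (h1 : fderiv ℝ f 0 1 = r • e0) (hI : fderiv ℝ f 0 Complex.I = r • e1)
    (hr : 0 < r) : r < 13 / 12 := by
  obtain ⟨hc, hm, hconf, hharm⟩ := hf
  have hdf : ∀ z ∈ ball (0 : ℂ) 1, DifferentiableAt ℝ f z := fun z hz =>
    (hc.contDiffAt (isOpen_ball.mem_nhds hz)).differentiableAt (by norm_num)
  have h0m : (0 : ℂ) ∈ ball (0 : ℂ) 1 := mem_ball_self one_pos
  -- third component of the derivative
  have hthird : ∀ z ∈ ball (0 : ℂ) 1, ∀ v, (fderiv ℝ f z v) 2 = 0 := by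
    intro z hz v
    have e1 : HasFDerivAt (fun w => f w 2)
        ((EuclideanSpace.proj (2 : Fin 3) : E3 →L[ℝ] ℝ).comp (fderiv ℝ f z)) z :=
      (EuclideanSpace.proj (2 : Fin 3) : E3 →L[ℝ] ℝ).hasFDerivAt.comp z (hdf z hz).hasFDerivAt
    have e2 : (fun w => f w 2) =ᶠ[𝓝 z] fun _ => (0 : ℝ) := by
      filter_upwards [isOpen_ball.mem_nhds hz] with w hw
      exact hz2 w hw
    have e3 := (e1.congr_of_eventuallyEq e2.symm).unique (hasFDerivAt_const (0 : ℝ) z)
    have e4 := congrArg (fun L : ℂ →L[ℝ] ℝ => L v) e3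
    simpa using e4
  set A : ℂ → ℂ := fun z => T (fderiv ℝ f z 1) - Complex.I * T (fderiv ℝ f z Complex.I) with hA
  set C : ℂ → ℂ := fun z => starRingEnd ℂ (T (fderiv ℝ f z 1)) -
    Complex.I * starRingEnd ℂ (T (fderiv ℝ f z Complex.I)) with hC
  -- product vanishes
  have hprod : ∀ z ∈ ball (0 : ℂ) 1, A z * C z = 0 := by
    intro z hz
    obtain ⟨hn, hi⟩ := hconf z hz
    have t1 := hthird z hz 1
    have tI := hthird z hz Complex.I
    rw [EuclideanSpace.norm_eq, EuclideanSpace.norm_eq] at hn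
    have hn2 := congrArg (fun t => t ^ 2) hn
    simp only [Fin.sum_univ_three, Real.norm_eq_abs, sq_abs, t1, tI] at hn2
    rw [Real.sq_sqrt (by positivity), Real.sq_sqrt (by positivity)] at hn2
    rw [PiLp.inner_apply] at hi
    simp only [Fin.sum_univ_three, t1, tI] at hi
    simp at hi hn2
    simp only [hA, hC, T_apply]
    apply Complex.ext
    · simp
      nlinarith
    · simp
      nlinarith
  have hTd : ∀ z ∈ ball (0 : ℂ) 1, ∀ v, HasFDerivAt (fun w => T (fderiv ℝ f w v))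
      (T.comp (fderiv ℝ (fun w => fderiv ℝ f w v) z)) z := fun z hz v =>
    T.hasFDerivAt.comp z ((second hc hz).1 v).hasFDerivAt
  have hAd : DifferentiableOn ℂ A (ball 0 1) := by
    intro z hz
    apply DifferentiableAt.differentiableWithinAt
    have hd : HasFDerivAt A (T.comp (fderiv ℝ (fun w => fderiv ℝ f w 1) z) -
        Complex.I • (T.comp (fderiv ℝ (fun w => fderiv ℝ f w Complex.I) z))) z :=
      (hTd z hz 1).sub ((hTd z hz Complex.I).const_mul Complex.I)
    rw [differentiableAt_complex_iff_differentiableAt_real]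
    refine ⟨hd.differentiableAt, ?_⟩
    rw [hd.fderiv]
    have hs := (second hc hz).2 1 Complex.I
    have hh := hharm z hz
    have hh2 : T (fderiv ℝ (fun w => fderiv ℝ f w 1) z 1) =
        - T (fderiv ℝ (fun w => fderiv ℝ f w Complex.I) z Complex.I) := by
      rw [eq_neg_iff_add_eq_zero, ← map_add, hh, map_zero]
    simp only [ContinuousLinearMap.sub_apply, ContinuousLinearMap.comp_apply,
      ContinuousLinearMap.smul_apply, smul_eq_mul]
    rw [hs, hh2]
    linear_combination (T (fderiv ℝ (fun w => fderiv ℝ f w Complex.I) z 1)) * Complex.I_mul_I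
  have hCd : DifferentiableOn ℂ C (ball 0 1) := by
    intro z hz
    apply DifferentiableAt.differentiableWithinAt
    have hcj : ∀ v, HasFDerivAt (fun w => starRingEnd ℂ (T (fderiv ℝ f w v)))
        ((Complex.conjCLE : ℂ →L[ℝ] ℂ).comp (T.comp (fderiv ℝ (fun w => fderiv ℝ f w v) z))) z :=
      fun v => (Complex.conjCLE : ℂ →L[ℝ] ℂ).hasFDerivAt.comp z (hTd z hz v)
    have hd : HasFDerivAt C _ z := (hcj 1).sub ((hcj Complex.I).const_mul Complex.I)
    rw [differentiableAt_complex_iff_differentiableAt_real]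
    refine ⟨hd.differentiableAt, ?_⟩
    rw [hd.fderiv]
    have hs := (second hc hz).2 1 Complex.I
    have hh := hharm z hz
    have hh2 : T (fderiv ℝ (fun w => fderiv ℝ f w 1) z 1) =
        - T (fderiv ℝ (fun w => fderiv ℝ f w Complex.I) z Complex.I) := by
      rw [eq_neg_iff_add_eq_zero, ← map_add, hh, map_zero]
    simp only [ContinuousLinearMap.sub_apply, ContinuousLinearMap.comp_apply,
      ContinuousLinearMap.smul_apply, smul_eq_mul]
    rw [hs, hh2]
    simp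
    linear_combination (starRingEnd ℂ (T (fderiv ℝ (fun w => fderiv ℝ f w Complex.I) z 1))) *
      Complex.I_mul_I
  have hA0 : A 0 ≠ 0 := by
    simp only [hA, h1, hI, T_apply]
    simp [e0, e1]
    intro h
    have := congrArg Complex.re h
    simp at this
    linarith
  have hA0' : ∀ᶠ z in 𝓝 (0 : ℂ), A z ≠ 0 :=
    (hAd.continuousOn.continuousAt (isOpen_ball.mem_nhds h0m)).eventually_ne hA0
  have hC0' : C =ᶠ[𝓝 (0 : ℂ)] 0 := by
    filter_upwards [hA0', isOpen_ball.mem_nhds h0m] with z hz hzb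
    exact (mul_eq_zero.1 (hprod z hzb)).resolve_left hz
  have hCan : AnalyticOnNhd ℂ C (ball 0 1) := hCd.analyticOnNhd isOpen_ball
  have hC0 : EqOn C 0 (ball 0 1) :=
    hCan.eqOn_zero_of_preconnected_of_eventuallyEq_zero (convex_ball _ _).isPreconnected h0m hC0'
  -- the planar map is holomorphic
  set F : ℂ → ℂ := fun z => T (f z) with hF
  have hFr : ∀ z ∈ ball (0 : ℂ) 1, HasFDerivAt F (T.comp (fderiv ℝ f z)) z := fun z hz =>
    T.hasFDerivAt.comp z (hdf z hz).hasFDerivAt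
  have hFd : DifferentiableOn ℂ F (ball 0 1) := by
    intro z hz
    apply DifferentiableAt.differentiableWithinAt
    rw [differentiableAt_complex_iff_differentiableAt_real]
    refine ⟨(hFr z hz).differentiableAt, ?_⟩
    rw [(hFr z hz).fderiv]
    have h2 := hC0 hz
    simp only [hC, Pi.zero_apply] at h2
    have h3 := congrArg (starRingEnd ℂ) h2
    simp at h3
    simp only [ContinuousLinearMap.comp_apply, smul_eq_mul]
    linear_combination (-Complex.I) * h3 + (T (fderiv ℝ f z Complex.I)) * Complex.I_mul_I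
  have hFm : ∀ z ∈ ball (0 : ℂ) 1, (F z).re ^ 4 + (F z).im ^ 4 < 1 := by
    intro z hz
    have h2 := mem_Om.1 (hm z hz)
    unfold rho at h2
    rw [hF]
    simp only [T_re, T_im]
    have h3 : 0 ≤ (f z 2) ^ 4 / 16 := by positivity
    linarith
  have hF0 : F 0 = 0 := by simp [hF, h0]
  have hb := holo_bound hFd hFm hF0
  have hderiv : deriv F 0 = r := by
    have h2 : HasFDerivAt F ((fderiv ℂ F 0).restrictScalars ℝ) 0 :=
      (hFd.differentiableAt (isOpen_ball.mem_nhds h0m)).hasFDerivAt.restrictScalars ℝ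
    have h3 := h2.unique (hFr 0 h0m)
    have h4 := congrArg (fun L : ℂ →L[ℝ] ℂ => L 1) h3
    simp only [ContinuousLinearMap.coe_restrictScalars', ContinuousLinearMap.comp_apply, h1,
      T_apply] at h4
    rw [← fderiv_apply_one_eq_deriv, h4]
    simp [e0]
  rw [hderiv, Complex.norm_real, Real.norm_eq_abs, abs_of_pos hr] at hb
  exact hb

/-- the reflection in the third coordinate -/
noncomputable def sg : E3 ≃ₗᵢ[ℝ] E3 :=
  LinearIsometryEquiv.piLpCongrRight 2
    (fun i : Fin 3 => if i = 2 then LinearIsometryEquiv.neg ℝ else LinearIsometryEquiv.refl ℝ ℝ)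

theorem sg_apply (x : E3) (i : Fin 3) : sg x i = if i = 2 then - x i else x i := by
  unfold sg
  rw [LinearIsometryEquiv.piLpCongrRight_apply]
  fin_cases i <;> simp

theorem fderiv_sg (f : ℂ → E3) (z v : ℂ) :
    fderiv ℝ (fun w => sg (f w)) z v = sg (fderiv ℝ f z v) := by
  have h := sg.toContinuousLinearEquiv.comp_fderiv (f := f) (x := z)
  have h2 := congrArg (fun L : ℂ →L[ℝ] E3 => L v) h
  simpa [Function.comp_def] using h2

theorem CH_sg {f : ℂ → E3} (hf : CH f) : CH (fun z => sg (f z)) := by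
  obtain ⟨hc, hm, hconf, hharm⟩ := hf
  refine ⟨?_, fun z hz => ?_, fun z hz => ?_, fun z hz => ?_⟩
  · exact sg.toContinuousLinearEquiv.contDiff.comp_contDiffOn hc
  · have h := mem_Om.1 (hm z hz)
    rw [mem_Om]
    unfold rho at h ⊢
    simp only [sg_apply]
    norm_num
    linarith
  · rw [fderiv_sg, fderiv_sg, sg.norm_map, sg.norm_map, sg.inner_map_map]
    exact hconf z hz
  · have e : ∀ v, (fun w => fderiv ℝ (fun w => sg (f w)) w v) = fun w => sg (fderiv ℝ f w v) :=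
      fun v => funext fun w => fderiv_sg f w v
    rw [e, e, fderiv_sg, fderiv_sg, ← map_add, hharm z hz, map_zero]

theorem sg_e0 : sg e0 = e0 := by
  ext i
  rw [sg_apply]
  fin_cases i <;> simp [e0]

theorem sg_e1 : sg e1 = e1 := by
  ext i
  rw [sg_apply]
  fin_cases i <;> simp [e1]

end Pool.Agent.Y257.Enn
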