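import Mathlib

/-!
# Enneper discs beat planar discs in a convex domain of `ℝ³`
-/

set_option autoImplicit false

open Metric Set Filter Topology

namespace Pool.Agent.Y257.Enn

/-- three-space -/
abbrev E3 : Type := EuclideanSpace ℝ (Fin 3)

/-- the defining function -/
noncomputable def rho (x : E3) : ℝ := x 0 ^ 4 + x 1 ^ 4 + x 2 ^ 4 / 16 - 1

/-- the domain -/
def Om : Set E3 := {x | rho x < 0}

theorem mem_Om {x : E3} : x ∈ Om ↔ rho x < 0 := Iff.rfl

theorem contDiff_rho : ContDiff ℝ ((⊤ : ℕ∞) : WithTop ℕ∞) rho := by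
  unfold rho
  fun_prop

theorem isOpen_Om : IsOpen Om := isOpen_lt contDiff_rho.continuous continuous_const

theorem pow4_convex {a b s t : ℝ} (ha : 0 ≤ a) (hb : 0 ≤ b) (hab : a + b = 1) :
    (a * s + b * t) ^ 4 ≤ a * s ^ 4 + b * t ^ 4 := by
  have h := (Even.convexOn_pow (𝕜 := ℝ) (n := 4) (by decide)).2 (Set.mem_univ s) (Set.mem_univ t)
    ha hb hab
  simpa [smul_eq_mul] using h

theorem convex_Om : Convex ℝ Om := by
  intro x hx y hy a b ha hb hab
  rw [mem_Om] at hx hy ⊢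
  unfold rho at hx hy ⊢
  have e : ∀ i : Fin 3, (a • x + b • y) i = a * x i + b * y i := fun i => by simp
  rw [e, e, e]
  have h0 := pow4_convex (s := x 0) (t := y 0) ha hb hab
  have h1 := pow4_convex (s := x 1) (t := y 1) ha hb hab
  have h2 := pow4_convex (s := x 2) (t := y 2) ha hb hab
  rcases ha.eq_or_lt with h | h
  · subst h
    have : b = 1 := by linarith
    subst this
    nlinarith
  · nlinarith [mul_pos h (neg_pos.2 hx), mul_nonneg hb (neg_nonneg.2 hy.le)]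

theorem isBounded_Om : Bornology.IsBounded Om := by
  refine (Metric.isBounded_ball (x := (0 : E3)) (r := 3)).subset ?_
  intro x hx
  rw [mem_ball_zero_iff, EuclideanSpace.norm_eq, Real.sqrt_lt' (by norm_num), Fin.sum_univ_three]
  rw [mem_Om] at hx
  unfold rho at hx
  simp only [Real.norm_eq_abs, sq_abs]
  nlinarith [sq_nonneg (x 0 ^ 2 - 1), sq_nonneg (x 1 ^ 2 - 1), sq_nonneg (x 2 ^ 2 - 4),
    sq_nonneg (x 0), sq_nonneg (x 1), sq_nonneg (x 2)]

theorem frontier_Om {x : E3} (hx : x ∈ frontier Om) : rho x = 0 := by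
  have h1 : rho x ≤ 0 := by
    have h : closure Om ⊆ {x | rho x ≤ 0} :=
      closure_minimal (fun y hy => (mem_Om.1 hy).le)
        (isClosed_le contDiff_rho.continuous continuous_const)
    exact h (frontier_subset_closure hx)
  have h2 : ¬ rho x < 0 := by
    intro h
    rw [isOpen_Om.frontier_eq] at hx
    exact hx.2 (mem_Om.2 h)
  linarith [not_lt.1 h2]

theorem fderiv_rho_self (x : E3) : fderiv ℝ rho x x = 4 * (rho x + 1) := by
  have hd : DifferentiableAt ℝ rho x := (contDiff_rho.differentiable (by simp)) x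
  have h1 : HasDerivAt (fun t : ℝ => rho (t • x)) (fderiv ℝ rho x x) 1 := by
    have h2 : HasDerivAt (fun t : ℝ => t • x) x 1 := by
      simpa using (hasDerivAt_id (1 : ℝ)).smul_const x
    have h3 : HasFDerivAt rho (fderiv ℝ rho x) ((1 : ℝ) • x) := by
      rw [one_smul]; exact hd.hasFDerivAt
    exact h3.comp_hasDerivAt 1 h2
  have h4 : HasDerivAt (fun t : ℝ => rho (t • x)) (4 * (rho x + 1)) 1 := by
    have e : (fun t : ℝ => rho (t • x)) = fun t : ℝ => t ^ 4 * (rho x + 1) - 1 := by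
      funext t
      simp only [rho, PiLp.smul_apply, smul_eq_mul]
      ring
    rw [e]
    have := ((hasDerivAt_pow 4 (1 : ℝ)).mul_const (rho x + 1)).sub_const 1
    simpa using this
  exact h1.unique h4

/-- real parts of three complex functions -/
noncomputable def mk (Q : Fin 3 → ℂ → ℂ) (z : ℂ) : E3 := WithLp.toLp 2 (fun i => (Q i z).re)

theorem mk_apply (Q : Fin 3 → ℂ → ℂ) (z : ℂ) (i : Fin 3) : mk Q z i = (Q i z).re := rfl

/-- the derivative -/
noncomputable def dmk (q : Fin 3 → ℂ) : ℂ →L[ℝ] E3 :=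
  (PiLp.continuousLinearEquiv 2 ℝ (fun _ : Fin 3 => ℝ)).symm.toContinuousLinearMap.comp
    (ContinuousLinearMap.pi fun i => Complex.reCLM.comp
      ((ContinuousLinearMap.mul ℂ ℂ (q i)).restrictScalars ℝ))

theorem dmk_apply (q : Fin 3 → ℂ) (v : ℂ) (i : Fin 3) : dmk q v i = (q i * v).re := by
  simp [dmk]

theorem hasFDerivAt_mk {Q : Fin 3 → ℂ → ℂ} {q : Fin 3 → ℂ} {z : ℂ}
    (h : ∀ i, HasDerivAt (Q i) (q i) z) : HasFDerivAt (mk Q) (dmk q) z := by
  rw [← hasFDerivWithinAt_univ, hasFDerivWithinAt_euclidean]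
  intro i
  rw [hasFDerivWithinAt_univ]
  have h1 : HasFDerivAt (fun w => (Q i w).re)
      (Complex.reCLM.comp ((ContinuousLinearMap.toSpanSingleton ℂ (q i)).restrictScalars ℝ)) z :=
    Complex.reCLM.hasFDerivAt.comp z ((h i).hasFDerivAt.restrictScalars ℝ)
  refine h1.congr_fderiv ?_
  apply ContinuousLinearMap.ext
  intro v
  have := dmk_apply q v i
  simp only [ContinuousLinearMap.comp_apply]
  rw [show (PiLp.proj 2 (fun _ : Fin 3 => ℝ) i : E3 →L[ℝ] ℝ) (dmk q v) = dmk q v i from rfl, this]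
  simp [mul_comm]

theorem fderiv_mk {Q : Fin 3 → ℂ → ℂ} {q : Fin 3 → ℂ} {z : ℂ}
    (h : ∀ i, HasDerivAt (Q i) (q i) z) (v : ℂ) :
    fderiv ℝ (mk Q) z v = WithLp.toLp 2 (fun i => (q i * v).re) := by
  rw [(hasFDerivAt_mk h).fderiv]
  ext i
  rw [dmk_apply]

/-- the conformal harmonic discs in `Om` -/
def CH (f : ℂ → E3) : Prop :=
  ContDiffOn ℝ 2 f (Metric.ball (0 : ℂ) 1) ∧
    (∀ z ∈ Metric.ball (0 : ℂ) 1, f z ∈ Om) ∧
    (∀ z ∈ Metric.ball (0 : ℂ) 1,
      ‖fderiv ℝ f z (1 : ℂ)‖ = ‖fderiv ℝ f z Complex.I‖ ∧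
      inner ℝ (fderiv ℝ f z (1 : ℂ)) (fderiv ℝ f z Complex.I) = 0) ∧
    (∀ z ∈ Metric.ball (0 : ℂ) 1,
      fderiv ℝ (fun w => fderiv ℝ f w (1 : ℂ)) z (1 : ℂ) +
        fderiv ℝ (fun w => fderiv ℝ f w Complex.I) z Complex.I = 0)

/-- unit vectors -/
noncomputable def e0 : E3 := EuclideanSpace.single 0 1
noncomputable def e1 : E3 := EuclideanSpace.single 1 1

/-- Weierstrass data of the Enneper disc -/
noncomputable def Q (i : Fin 3) (z : ℂ) : ℂ :=
  ![(13 / 12 : ℂ) * (z - z ^ 3 / 12), -(13 / 12 : ℂ) * Complex.I * (z + z ^ 3 / 12),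
    (13 / 24 : ℂ) * z ^ 2] i

noncomputable def Q' (i : Fin 3) (z : ℂ) : ℂ :=
  ![(13 / 12 : ℂ) * (1 - z ^ 2 / 4), -(13 / 12 : ℂ) * Complex.I * (1 + z ^ 2 / 4),
    (13 / 12 : ℂ) * z] i

noncomputable def Q'' (i : Fin 3) (z : ℂ) : ℂ :=
  ![-(13 / 24 : ℂ) * z, -(13 / 24 : ℂ) * Complex.I * z, (13 / 12 : ℂ)] i

theorem hasDerivAt_Q (i : Fin 3) (z : ℂ) : HasDerivAt (Q i) (Q' i z) z := by
  have h1 : HasDerivAt (fun z : ℂ => z) 1 z := hasDerivAt_id z
  have h2 := hasDerivAt_pow 2 z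
  have h3 := hasDerivAt_pow 3 z
  fin_cases i
  · have := (h1.sub (h3.div_const 12)).const_mul (13 / 12 : ℂ)
    refine this.congr_deriv ?_
    simp [Q']; ring
  · have := (h1.add (h3.div_const 12)).const_mul (-(13 / 12 : ℂ) * Complex.I)
    refine this.congr_deriv ?_
    simp [Q']; ring
  · have := h2.const_mul (13 / 24 : ℂ)
    refine this.congr_deriv ?_
    simp [Q']; ring

theorem hasDerivAt_Q' (i : Fin 3) (z : ℂ) : HasDerivAt (Q' i) (Q'' i z) z := by
  have h1 : HasDerivAt (fun z : ℂ => z) 1 z := hasDerivAt_id z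
  have h2 := hasDerivAt_pow 2 z
  fin_cases i
  · have := ((h2.div_const 4).const_sub 1).const_mul (13 / 12 : ℂ)
    refine this.congr_deriv ?_
    simp [Q'']; ring
  · have := ((h2.div_const 4).const_add 1).const_mul (-(13 / 12 : ℂ) * Complex.I)
    refine this.congr_deriv ?_
    simp [Q'']; ring
  · have := h1.const_mul (13 / 12 : ℂ)
    refine this.congr_deriv ?_
    simp [Q'']

/-- the Enneper disc -/
noncomputable def enn : ℂ → E3 := mk Q

theorem fderiv_enn (z v : ℂ) : fderiv ℝ enn z v = WithLp.toLp 2 (fun i => (Q' i z * v).re) :=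
  fderiv_mk (fun i => hasDerivAt_Q i z) v

theorem fderiv_enn' (z v w : ℂ) :
    fderiv ℝ (fun z => fderiv ℝ enn z v) z w = WithLp.toLp 2 (fun i => (Q'' i z * v * w).re) := by
  have e : (fun z => fderiv ℝ enn z v) = mk (fun i z => Q' i z * v) := by
    funext z
    rw [fderiv_enn]; rfl
  rw [e, fderiv_mk (fun i => (hasDerivAt_Q' i z).mul_const v)]

theorem contDiff_enn : ContDiff ℝ 2 enn := by
  rw [contDiff_euclidean]
  intro i
  have h : ContDiff ℝ 2 (fun z : ℂ => Q i z) := by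
    have hz : ContDiff ℝ 2 (fun z : ℂ => z) := contDiff_id
    fin_cases i
    · exact contDiff_const.mul (hz.sub ((hz.pow 3).div_const 12))
    · exact contDiff_const.mul (hz.add ((hz.pow 3).div_const 12))
    · exact contDiff_const.mul (hz.pow 2)
  exact Complex.reCLM.contDiff.comp h

theorem mono_m {s s' : ℝ} (_h0 : 0 ≤ s) (h1 : s ≤ s') (h2 : s' ≤ 1) :
    s * (5 / 4 - s / 3) ^ 2 ≤ s' * (5 / 4 - s' / 3) ^ 2 := by
  have h : 0 ≤ 25 / 16 - 5 / 6 * (s + s') + (s ^ 2 + s * s' + s' ^ 2) / 9 := by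
    nlinarith [sq_nonneg (s - s'), sq_nonneg (s + s' - 2)]
  nlinarith [mul_nonneg (sub_nonneg.2 h1) h]

theorem ineq {X Y : ℝ} (hX : 0 ≤ X) (hY : 0 ≤ Y) (hXY : X + Y ≤ 1) :
    X ^ 2 * (1 - X / 12 + Y / 4) ^ 4 + Y ^ 2 * (1 + X / 4 - Y / 12) ^ 4 + (X - Y) ^ 4 / 256
      < (12 / 13) ^ 4 := by
  have a1 : X ^ 2 * (1 - X / 12 + Y / 4) ^ 4 ≤ X ^ 2 * (5 / 4 - X / 3) ^ 4 := by
    apply mul_le_mul_of_nonneg_left _ (sq_nonneg X)
    apply pow_le_pow_left₀ (by linarith) (by linarith)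
  have a2 : Y ^ 2 * (1 + X / 4 - Y / 12) ^ 4 ≤ Y ^ 2 * (5 / 4 - Y / 3) ^ 4 := by
    apply mul_le_mul_of_nonneg_left _ (sq_nonneg Y)
    apply pow_le_pow_left₀ (by linarith) (by linarith)
  have a3 : Y ^ 2 * (5 / 4 - Y / 3) ^ 4 ≤ (1 - X) ^ 2 * (5 / 4 - (1 - X) / 3) ^ 4 := by
    have h := mono_m hY (show Y ≤ 1 - X by linarith) (by linarith)
    have h2 := pow_le_pow_left₀ (mul_nonneg hY (sq_nonneg _)) h 2
    calc _ = (Y * (5 / 4 - Y / 3) ^ 2) ^ 2 := by ring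
      _ ≤ _ := h2
      _ = _ := by ring
  have a4 : (X - Y) ^ 4 / 256 ≤ 1 / 256 := by
    have h : (X - Y) ^ 2 ≤ 1 := by nlinarith
    have : (X - Y) ^ 4 ≤ 1 := by
      calc (X - Y) ^ 4 = ((X - Y) ^ 2) ^ 2 := by ring
        _ ≤ 1 ^ 2 := pow_le_pow_left₀ (sq_nonneg _) h 2
        _ = 1 := by norm_num
    linarith
  have a5 : X ^ 2 * (5 / 4 - X / 3) ^ 4 + (1 - X) ^ 2 * (5 / 4 - (1 - X) / 3) ^ 4 ≤
      14641 / 20736 := by
    have ht : 0 ≤ X * (1 - X) := mul_nonneg hX (by linarith)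
    have ht2 : X * (1 - X) ≤ 1 / 4 := by nlinarith [sq_nonneg (X - 1 / 2)]
    have e : X ^ 2 * (5 / 4 - X / 3) ^ 4 + (1 - X) ^ 2 * (5 / 4 - (1 - X) / 3) ^ 4 =
      14641 / 20736 - (X * (1 - X)) * (1331 / 3456 - 137 / 108 * (X * (1 - X)) +
        2 / 81 * (X * (1 - X)) ^ 2) := by ring
    rw [e]
    have : 0 ≤ (X * (1 - X)) * (1331 / 3456 - 137 / 108 * (X * (1 - X)) +
        2 / 81 * (X * (1 - X)) ^ 2) := by
      apply mul_nonneg ht
      nlinarith [sq_nonneg (X * (1 - X))]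
    linarith
  have a6 : (12 / 13 : ℝ) ^ 4 > 14641 / 20736 + 1 / 256 := by norm_num
  linarith

theorem enn_mem {z : ℂ} (hz : z ∈ ball (0 : ℂ) 1) : enn z ∈ Om := by
  have hn : z.re ^ 2 + z.im ^ 2 ≤ 1 := by
    rw [mem_ball_zero_iff] at hz
    have := Complex.sq_norm z
    rw [Complex.normSq_apply] at this
    nlinarith [norm_nonneg z]
  have h := ineq (sq_nonneg z.re) (sq_nonneg z.im) hn
  rw [mem_Om]
  have h0 : enn z 0 = 13 / 12 * (z.re * (1 - z.re ^ 2 / 12 + z.im ^ 2 / 4)) := by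
    simp only [enn, mk_apply, Q]
    simp [Complex.mul_re, pow_succ]
    ring
  have h1 : enn z 1 = 13 / 12 * (z.im * (1 + z.re ^ 2 / 4 - z.im ^ 2 / 12)) := by
    simp only [enn, mk_apply, Q]
    simp [Complex.mul_re, pow_succ]
    ring
  have h2 : enn z 2 = 13 / 24 * (z.re ^ 2 - z.im ^ 2) := by
    simp only [enn, mk_apply, Q]
    simp [Complex.mul_re, pow_succ]
  unfold rho
  rw [h0, h1, h2]
  nlinarith

theorem CH_enn : CH enn := by
  refine ⟨contDiff_enn.contDiffOn, fun z hz => enn_mem hz, fun z _ => ⟨?_, ?_⟩, fun z _ => ?_⟩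
  · rw [fderiv_enn, fderiv_enn, EuclideanSpace.norm_eq, EuclideanSpace.norm_eq]
    congr 1
    simp only [Fin.sum_univ_three, Real.norm_eq_abs, sq_abs]
    simp [Q', Complex.mul_re, pow_succ]
    ring
  · rw [fderiv_enn, fderiv_enn, PiLp.inner_apply]
    simp only [Fin.sum_univ_three]
    simp [Q', Complex.mul_re, pow_succ]
    ring
  · rw [fderiv_enn', fderiv_enn']
    ext i
    simp [mul_assoc]

theorem enn_zero : enn 0 = 0 := by
  ext i
  rw [enn, mk_apply]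
  fin_cases i <;> simp [Q]

theorem enn_d1 : fderiv ℝ enn 0 1 = (13 / 12 : ℝ) • e0 := by
  rw [fderiv_enn]
  ext i
  fin_cases i <;> simp [Q', e0]

theorem enn_dI : fderiv ℝ enn 0 Complex.I = (13 / 12 : ℝ) • e1 := by
  rw [fderiv_enn]
  ext i
  fin_cases i <;> simp [Q', e1]

end Pool.Agent.Y257.Enn
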